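import Pool.Agent.V11191.KB.Disc

/-!
# Kolmogorov extensions of arbitrary factors: reduction to the factor
-/

set_option autoImplicit false
set_option linter.unusedSectionVars false

open MeasureTheory Filter Topology
open scoped ENNReal

noncomputable section

namespace Pool.Agent.V11191.KB

open Pool.Agent.W761.Box (bx bxc BM Good1 bxc_add bxc_sub bxc_mul dz orb Cv Cv_add Cv_smul
  Cv_zero Cv_closed bxc_bound)
open Pool.Agent.TH784.KE

variable {X : Type*} {mA mY mX : MeasurableSpace X} {μ : Measure X} [IsProbabilityMeasure μ]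
variable {G : Type*} [Group G]
variable {Φ : G →* Equiv.Perm X} {ℓ : G → ℝ}
variable {J : Type*} [DecidableEq J] [Fintype J]

/-- **Reduction to the factor.** -/
theorem conv_base (hK : KExt μ mA mY Φ ℓ) {k : ℕ} (c : J → G)
    (b : J → Fin k → G)
    (hb1 : ∀ v l, ℓ (b v l) = 0 → b v l = 1)
    (hb2 : ∀ v w, (∀ l, ℓ (b v l) = ℓ (b w l)) → b v = b w)
    (hfull : ∀ v, (∀ l, b v l ≠ 1) ∨ (∀ l, b v l = 1))
    (hbase : ∀ g : J → X → ℂ, (∀ j, Measurable[mY] (g j)) → (∀ j, ∃ C : ℝ, ∀ x, ‖g j x‖ ≤ C) →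
      ∀ᵐ x ∂μ, ∃ L : ℂ, Tendsto (fun N => bxc k N fun n => ∏ j, g j (Φ (c j * pw (b j) n) x))
        atTop (𝓝 L))
    {f : J → X → ℂ} (hf : ∀ j, @BM X mX (f j)) :
    ∀ᵐ x ∂μ, ∃ L : ℂ, Tendsto (fun N => bxc k N fun n => ∏ j, f j (Φ (c j * pw (b j) n) x))
      atTop (𝓝 L) := by
  classical
  have hYX : mY ≤ mX := hK.base.le.trans hK.filt.le
  set R : Finset (Fin k → G) := (Finset.univ.image b).erase (fun _ => 1) with hR
  set F : (Fin k → G) → X → ℂ := fun r x => ∏ j ∈ Finset.univ.filter (fun j => b j = r),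
    f j (Φ (c j) x) with hF
  have hFB : ∀ r, @BM X mX (F r) := by
    intro r
    choose hm C hC using hf
    refine ⟨?_, ∏ j ∈ Finset.univ.filter (fun j => b j = r), C j, fun x => ?_⟩
    · exact Finset.measurable_prod _ fun j _ => (hm j).comp (hK.fl (c j)).measurable
    · rw [hF, norm_prod]
      exact Finset.prod_le_prod (fun j _ => norm_nonneg _) fun j _ => hC j _
  have hmem : ∀ r : {r // r ∈ R}, ∃ v, b v = r.1 ∧ r.1 ≠ fun _ => 1 := by
    rintro ⟨r, hr⟩
    rw [hR, Finset.mem_erase, Finset.mem_image] at hr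
    obtain ⟨h1, v, _, hv⟩ := hr
    exact ⟨v, hv, h1⟩
  choose rep hrep hne1 using hmem
  choose e heB heY hee hev using fun r : {r // r ∈ R} => exists_cond (μ := μ) hYX (hFB r.1)
  have hmain := char_gen (J := {r // r ∈ R}) hK (fun _ => 1) (fun r => r.1)
    (fun r l h => by
      rw [← hrep r] at h ⊢
      exact hb1 (rep r) l h)
    (fun r r' hrr' => by
      by_contra hcon
      push Not at hcon
      apply hrr'
      apply Subtype.ext
      rw [← hrep r, ← hrep r'] at hcon ⊢
      exact hb2 _ _ hcon)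
    (fun r => by
      by_contra hcon
      push Not at hcon
      exact hne1 r (funext hcon))
    (f := fun r => F r.1) (e := e) (fun r => hFB r.1) heB heY hev (Or.inr fun r l => by
      rcases hfull (rep r) with h | h
      · rw [← hrep r]
        exact h l
      · exfalso
        apply hne1 r
        rw [← hrep r]
        exact funext h)
  have hbs := hbase (fun j x => ∏ r ∈ Finset.univ.filter (fun r => rep r = j),
      e r (Φ (c j)⁻¹ x))
    (fun j => Finset.measurable_prod _ fun r _ => (heY r).comp (hK.base.inv (c j)⁻¹))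
    (fun j => by
      choose m C hC using heB
      refine ⟨∏ r ∈ Finset.univ.filter (fun r => rep r = j), C r, fun x => ?_⟩
      rw [norm_prod]
      exact Finset.prod_le_prod (fun j _ => norm_nonneg _) fun j _ => hC j _)
  filter_upwards [hmain, hbs] with x hx hbx
  obtain ⟨L, hL⟩ := hbx
  have hsum := hx.add hL
  refine ⟨_, (hsum.const_mul (F (fun _ => 1) x)).congr fun N => ?_⟩
  rw [← bxc_add, ← bxc_mul]
  congr 1
  funext n
  have hpw1 : pw (fun _ : Fin k => (1 : G)) n = 1 := by
    unfold pw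
    simp
  have e1 : ∏ r : {r // r ∈ R}, F r.1 (Φ (1 * pw r.1 n) x) = ∏ r ∈ R, F r (Φ (pw r n) x) := by
    rw [← Finset.prod_coe_sort R (fun r => F r (Φ (pw r n) x))]
    refine Finset.prod_congr rfl fun r _ => ?_
    rw [one_mul]
  have e2 : ∏ j, f j (Φ (c j * pw (b j) n) x) =
      ∏ r ∈ insert (fun _ => 1) (Finset.univ.image b), F r (Φ (pw r n) x) := by
    rw [← Finset.prod_fiberwise_of_maps_to (s := Finset.univ)
      (t := insert (fun _ => 1) (Finset.univ.image b)) (g := b)
      (fun j _ => Finset.mem_insert_of_mem (Finset.mem_image_of_mem b (Finset.mem_univ j)))]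
    refine Finset.prod_congr rfl fun r _ => ?_
    rw [hF]
    refine Finset.prod_congr rfl fun j hj => ?_
    rw [(Finset.mem_filter.1 hj).2, map_mul, Equiv.Perm.mul_apply]
  have e3 : insert (fun _ => 1) (Finset.univ.image b) = insert (fun _ => 1) R := by
    rw [hR]
    ext r
    simp only [Finset.mem_insert, Finset.mem_erase]
    tauto
  have e4 : ∏ j, ∏ r ∈ Finset.univ.filter (fun r => rep r = j),
      e r (Φ (c j)⁻¹ (Φ (c j * pw (b j) n) x)) =
      ∏ r : {r // r ∈ R}, e r (Φ (1 * pw r.1 n) x) := by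
    rw [← Finset.prod_fiberwise (s := Finset.univ) (g := rep)]
    refine Finset.prod_congr rfl fun j _ => Finset.prod_congr rfl fun r hr => ?_
    have hr' := (Finset.mem_filter.1 hr).2
    congr 1
    rw [← hr', hrep r, ← Equiv.Perm.mul_apply, ← map_mul, one_mul, inv_mul_cancel_left]
  show F (fun _ => 1) x * ((∏ r : {r // r ∈ R}, F r.1 (Φ (1 * pw r.1 n) x) -
    ∏ r : {r // r ∈ R}, e r (Φ (1 * pw r.1 n) x)) + ∏ j, ∏ r ∈ Finset.univ.filter
      (fun r => rep r = j), e r (Φ (c j)⁻¹ (Φ (c j * pw (b j) n) x))) = _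
  rw [e4, sub_add_cancel, e1, e2, e3, Finset.prod_insert (by rw [hR]; exact Finset.notMem_erase _ _),
    hpw1, map_one, Equiv.Perm.one_apply]

end Pool.Agent.V11191.KB
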