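import Pool.Agent.V11191.KB.Core

/-!
# Box averages for Kolmogorov extensions: the base is characteristic
-/

set_option autoImplicit false
set_option linter.unusedSectionVars false

open MeasureTheory Filter Topology
open scoped ENNReal

noncomputable section

namespace Pool.Agent.V11191.KB

open Pool.Agent.W761.Box (bx bxc BM Good1 bxc_add bxc_sub bxc_mul dz orb)
open Pool.Agent.TH784.KE

variable {X : Type*} {mA mY mX : MeasurableSpace X} {μ : Measure X} [IsProbabilityMeasure μ]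
variable {G : Type*} [Group G]
variable {Φ : G →* Equiv.Perm X} {ℓ : G → ℝ}
variable {J : Type*} [DecidableEq J] [Fintype J]

/-- **The base is characteristic for averages over unrestricted boxes.** -/
theorem char_gen (hK : KExt μ mA mY Φ ℓ) {k : ℕ} (c : J → G) (b : J → Fin k → G)
    (hb1 : ∀ v l, ℓ (b v l) = 0 → b v l = 1)
    (hb2 : ∀ v w, v ≠ w → ∃ l, ℓ (b v l) ≠ ℓ (b w l))
    (hb3 : ∀ v, ∃ l, b v l ≠ 1) {f e : J → X → ℂ}
    (hf : ∀ j, @BM X mX (f j)) (he : ∀ j, @BM X mX (e j)) (heY : ∀ j, Measurable[mY] (e j))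
    (hfe : ∀ j, ∀ B : Set X, MeasurableSet[mY] B → ∫ x in B, (f j x - e j x) ∂μ = 0)
    (hcase : (∀ v, ∃ z : ℂ, e v = fun _ => z) ∨ (∀ v l, b v l ≠ 1)) :
    ∀ᵐ x ∂μ, Tendsto (fun N => bxc k N fun n => (∏ j, f j (Φ (c j * pw (b j) n) x) -
      ∏ j, e j (Φ (c j * pw (b j) n) x))) atTop (𝓝 0) := by
  classical
  have key : ∀ t : Finset J, t ≠ ∅ → ∀ᵐ x ∂μ, Tendsto (fun N => bxc k N fun n =>
      (∏ j ∈ t, (f j (Φ (c j * pw (b j) n) x) - e j (Φ (c j * pw (b j) n) x))) *
        ∏ j ∈ Finset.univ \ t, e j (Φ (c j * pw (b j) n) x)) atTop (𝓝 0) := by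
    intro t ht
    have htn := Finset.nonempty_of_ne_empty ht
    obtain ⟨j₀, hj₀⟩ := htn
    obtain ⟨l₀, hl₀⟩ := hb3 j₀
    have hne : ℓ (b j₀ l₀) ≠ 0 := fun h => hl₀ (hb1 _ _ h)
    obtain ⟨s₀, hs₀⟩ : ∃ s₀ : G, 0 < ℓ s₀ := by
      rcases lt_or_gt_of_ne hne with h | h
      · exact ⟨(b j₀ l₀)⁻¹, by rw [hK.filt.inv]; linarith⟩
      · exact ⟨b j₀ l₀, h⟩
    have hAdm : ∀ v, AdmC μ mY t v
        ((fun j => if j ∈ t then (fun x => f j x - e j x) else e j) v) := fun v => by
      by_cases hv : v ∈ t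
      · simp only [hv, if_true]
        obtain ⟨m₁, C₁, b₁⟩ := hf v
        obtain ⟨m₂, C₂, b₂⟩ := he v
        exact ⟨⟨m₁.sub m₂, C₁ + C₂, fun x => (norm_sub_le _ _).trans
          (add_le_add (b₁ x) (b₂ x))⟩, fun _ => hfe v, fun h => absurd hv h⟩
      · simp only [hv, if_false]
        exact ⟨he v, fun h => absurd h hv, fun _ => heY v⟩
    have hz : Cz μ (fun v (n : Fin k → ℕ) => (Φ (c v * pw (b v) n) : X → X))
        (fun j => if j ∈ t then (fun x => f j x - e j x) else e j) := by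
      rcases hcase with hc | hc
      · exact zero_triv hK hs₀ ⟨j₀, hj₀⟩ c hAdm (fun v hv => by
          obtain ⟨z, hz⟩ := hc v
          exact ⟨z, by simp only [hv, if_false]; exact hz⟩) k b (fun v _ l => hb1 v l)
          (fun v _ w _ hvw => hb2 v w hvw) (fun v _ => hb3 v)
      · refine zero_complex (k := k) (S := t) (lam := fun v => ℓ (c v))
          (θ := fun v l => ℓ (b v l)) (lt_of_le_of_lt (Nat.zero_le _) l₀.2) hK hs₀ ?_ ?_
          (fun l => ⟨j₀, hj₀, fun h => hc j₀ l (hb1 _ _ h)⟩)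
          (fun v _ w _ hvw => hb2 v w hvw) ?_ hAdm
        · intro n v
          rw [hK.filt.hom, ell_pw hK.filt]
          rfl
        · intro v _ l hl
          exact absurd (hb1 _ _ hl) (hc v l)
        · intro v
          exact good_pw hK.fl (c v) (b v)
    filter_upwards [hz] with x hx
    refine hx.congr fun N => ?_
    congr 1
    funext n
    rw [← Finset.prod_mul_prod_compl t, ← Finset.compl_eq_univ_sdiff]
    congr 1
    · refine Finset.prod_congr rfl fun j hj => ?_
      rw [if_pos hj]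
    · refine Finset.prod_congr rfl fun j hj => ?_
      rw [if_neg (Finset.mem_compl.1 hj)]
  have hall : ∀ᵐ x ∂μ, ∀ t : Finset J, t ≠ ∅ → Tendsto (fun N => bxc k N fun n =>
      (∏ j ∈ t, (f j (Φ (c j * pw (b j) n) x) - e j (Φ (c j * pw (b j) n) x))) *
        ∏ j ∈ Finset.univ \ t, e j (Φ (c j * pw (b j) n) x)) atTop (𝓝 0) := by
    rw [ae_all_iff]
    intro t
    by_cases ht : t = ∅
    · exact Eventually.of_forall fun x h => absurd ht h
    · filter_upwards [key t ht] with x hx _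
      exact hx
  filter_upwards [hall] with x hx
  have hsum := tendsto_finsetSum ((Finset.univ : Finset J).powerset.erase ∅) fun t ht =>
    hx t (Finset.ne_of_mem_erase ht)
  rw [Finset.sum_const_zero] at hsum
  refine hsum.congr fun N => ?_
  rw [← bxc_sum]
  congr 1
  funext n
  have h1 := Finset.prod_add
    (fun j => f j (Φ (c j * pw (b j) n) x) - e j (Φ (c j * pw (b j) n) x))
    (fun j => e j (Φ (c j * pw (b j) n) x)) (Finset.univ : Finset J)
  have h2 : ∏ j, (f j (Φ (c j * pw (b j) n) x) - e j (Φ (c j * pw (b j) n) x) +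
      e j (Φ (c j * pw (b j) n) x)) =
      ∏ j, f j (Φ (c j * pw (b j) n) x) := Finset.prod_congr rfl fun j _ => by ring
  rw [h2, ← Finset.add_sum_erase _ _ (Finset.empty_mem_powerset _)] at h1
  rw [h1]
  simp

/-- Box averages of a constant. -/
theorem bxc_const {k : ℕ} (z : ℂ) {N : Fin k → ℕ} (hN : ∀ j, 1 ≤ N j) :
    bxc k N (fun _ => z) = z := by
  unfold Pool.Agent.W761.Box.bxc
  rw [Finset.sum_const, Fintype.card_piFinset, nsmul_eq_mul]
  simp only [Finset.card_range]
  push_cast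
  have h : (∏ j, (N j : ℂ)) ≠ 0 := by
    rw [Finset.prod_ne_zero_iff]
    intro j _
    have := hN j
    have h0 : N j ≠ 0 := by omega
    exact_mod_cast h0
  rw [← mul_assoc, inv_mul_cancel₀ h, one_mul]

/-- **Kolmogorov actions, distinct forms: the averages converge to the product of the
integrals.** -/
theorem conv_distinct (hK : KExt μ mA ⊥ Φ ℓ) {k : ℕ} (c : J → G) (b : J → Fin k → G)
    (hb1 : ∀ v l, ℓ (b v l) = 0 → b v l = 1)
    (hb2 : ∀ v w, v ≠ w → ∃ l, ℓ (b v l) ≠ ℓ (b w l))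
    (hb3 : ∀ v, ∃ l, b v l ≠ 1) {f : J → X → ℂ} (hf : ∀ j, @BM X mX (f j)) :
    ∀ᵐ x ∂μ, Tendsto (fun N => bxc k N fun n => ∏ j, f j (Φ (c j * pw (b j) n) x))
      atTop (𝓝 (∏ j, ∫ x, f j x ∂μ)) := by
  have hfi : ∀ j, Integrable (f j) μ := fun j => by
    obtain ⟨h, C, hC⟩ := hf j
    exact Integrable.of_bound h.aestronglyMeasurable C (Eventually.of_forall hC)
  have h1 := char_gen (mY := ⊥) hK c b hb1 hb2 hb3 hf (e := fun j _ => ∫ x, f j x ∂μ)
    (fun j => ⟨measurable_const, ‖∫ x, f j x ∂μ‖, fun x => le_rfl⟩)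
    (fun j => measurable_const) (fun j B hB => by
      rcases MeasurableSpace.measurableSet_bot_iff.1 hB with rfl | rfl
      · simp
      · rw [Measure.restrict_univ, integral_sub (hfi j) (integrable_const _), integral_const]
        simp)
    (Or.inl fun j => ⟨_, rfl⟩)
  filter_upwards [h1] with x hx
  have h2 := hx.add_const (∏ j, ∫ x, f j x ∂μ)
  rw [zero_add] at h2
  refine h2.congr' ?_
  filter_upwards [eventually_ge_atTop (fun _ : Fin k => 1)] with N hN
  rw [bxc_sub, bxc_const _ hN, sub_add_cancel]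

/-- **Kolmogorov actions, arbitrary forms: the averages converge almost everywhere.** -/
theorem conv_all (hK : KExt μ mA ⊥ Φ ℓ) {k : ℕ} (c : J → G) (b : J → Fin k → G)
    (hb1 : ∀ v l, ℓ (b v l) = 0 → b v l = 1)
    (hb2 : ∀ v w, (∀ l, ℓ (b v l) = ℓ (b w l)) → b v = b w)
    {f : J → X → ℂ} (hf : ∀ j, @BM X mX (f j)) :
    ∀ᵐ x ∂μ, ∃ L : ℂ, Tendsto (fun N => bxc k N fun n => ∏ j, f j (Φ (c j * pw (b j) n) x))
      atTop (𝓝 L) := by
  classical
  set R : Finset (Fin k → G) := (Finset.univ.image b).erase (fun _ => 1) with hR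
  set F : (Fin k → G) → X → ℂ := fun r x => ∏ j ∈ Finset.univ.filter (fun j => b j = r),
    f j (Φ (c j) x) with hF
  have hFB : ∀ r, @BM X mX (F r) := by
    intro r
    choose hm C hC using hf
    refine ⟨?_, ∏ j ∈ Finset.univ.filter (fun j => b j = r), C j, fun x => ?_⟩
    · exact Finset.measurable_prod _ fun j _ => (hm j).comp (hK.fl (c j)).measurable
    · rw [hF, norm_prod]
      exact Finset.prod_le_prod (fun j _ => norm_nonneg _) fun j _ => hC j _
  have hmem : ∀ r : {r // r ∈ R}, ∃ v, b v = r.1 ∧ r.1 ≠ fun _ => 1 := by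
    rintro ⟨r, hr⟩
    rw [hR, Finset.mem_erase, Finset.mem_image] at hr
    obtain ⟨h1, v, _, hv⟩ := hr
    exact ⟨v, hv, h1⟩
  have hmain := conv_distinct (J := {r // r ∈ R}) hK (fun _ => 1) (fun r => r.1)
    (fun r l h => by
      obtain ⟨v, hv, _⟩ := hmem r
      rw [← hv] at h ⊢
      exact hb1 v l h)
    (fun r r' hrr' => by
      obtain ⟨v, hv, _⟩ := hmem r
      obtain ⟨w, hw, _⟩ := hmem r'
      by_contra hcon
      push Not at hcon
      apply hrr'
      apply Subtype.ext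
      rw [← hv, ← hw] at hcon ⊢
      exact hb2 v w hcon)
    (fun r => by
      obtain ⟨v, hv, hne⟩ := hmem r
      by_contra hcon
      push Not at hcon
      exact hne (funext hcon))
    (f := fun r => F r.1) (fun r => hFB r.1)
  filter_upwards [hmain] with x hx
  refine ⟨_, (hx.const_mul (F (fun _ => 1) x)).congr fun N => ?_⟩
  rw [← bxc_mul]
  congr 1
  funext n
  have hpw1 : pw (fun _ : Fin k => (1 : G)) n = 1 := by
    unfold pw
    simp
  have e1 : ∏ r : {r // r ∈ R}, F r.1 (Φ (1 * pw r.1 n) x) = ∏ r ∈ R, F r (Φ (pw r n) x) := by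
    rw [← Finset.prod_coe_sort R (fun r => F r (Φ (pw r n) x))]
    refine Finset.prod_congr rfl fun r _ => ?_
    rw [one_mul]
  have e2 : ∏ j, f j (Φ (c j * pw (b j) n) x) =
      ∏ r ∈ insert (fun _ => 1) (Finset.univ.image b), F r (Φ (pw r n) x) := by
    rw [← Finset.prod_fiberwise_of_maps_to (s := Finset.univ)
      (t := insert (fun _ => 1) (Finset.univ.image b)) (g := b)
      (fun j _ => Finset.mem_insert_of_mem (Finset.mem_image_of_mem b (Finset.mem_univ j)))]
    refine Finset.prod_congr rfl fun r _ => ?_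
    rw [hF]
    refine Finset.prod_congr rfl fun j hj => ?_
    rw [(Finset.mem_filter.1 hj).2, map_mul, Equiv.Perm.mul_apply]
  have e3 : insert (fun _ => 1) (Finset.univ.image b) = insert (fun _ => 1) R := by
    rw [hR]
    ext r
    simp only [Finset.mem_insert, Finset.mem_erase]
    tauto
  show F (fun _ => 1) x * ∏ r : {r // r ∈ R}, F r.1 (Φ (1 * pw r.1 n) x) = _
  rw [e1, e2, e3, Finset.prod_insert (by rw [hR]; exact Finset.notMem_erase _ _), hpw1, map_one,
    Equiv.Perm.one_apply]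

end Pool.Agent.V11191.KB
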