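import Pool.Agent.V11191.KB.EccFin

/-!
# The base of a Kolmogorov extension is characteristic for averages over boxes
-/

set_option autoImplicit false
set_option linter.unusedSectionVars false

open MeasureTheory Filter Topology
open scoped ENNReal

noncomputable section

namespace Pool.Agent.V11191.KB

open Pool.Agent.W761.Box (bx bxc BM Good1 bxc_add bxc_sub bxc_mul dz orb)
open Pool.Agent.W761.Gauss (BM_of_memLp)
open Pool.Agent.TH784.KE

/-- **The base is characteristic.** -/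
theorem main_char {X : Type} {𝒴 : MeasurableSpace X} {mX : MeasurableSpace X} {μ : Measure X}
    [IsProbabilityMeasure μ] {d k n : ℕ} {T : Fin d → Equiv.Perm X} (hT : IsKExtension 𝒴 μ T)
    (P : Fin d → Fin n → MvPolynomial (Fin k) ℤ) (hP : ∀ i j, (P i j).totalDegree ≤ 1)
    (hne : ∀ j, ∃ l i, MvPolynomial.coeff (Finsupp.single l 1) (P i j) ≠ 0)
    (hdist : ∀ j j', j ≠ j' → ∃ l i, MvPolynomial.coeff (Finsupp.single l 1) (P i j) ≠
      MvPolynomial.coeff (Finsupp.single l 1) (P i j'))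
    {𝓕 : Filter (Fin k → ℕ)} (h𝓕 : 𝓕 ≤ atTop)
    (hor : (∀ j l, ∃ i, MvPolynomial.coeff (Finsupp.single l 1) (P i j) ≠ 0) ∨
      ∀ δ : ℝ, 0 < δ → ∀ᶠ M in 𝓕, ∀ i j, Real.log (M i) ≤ δ * M j)
    {f : Fin n → X → ℂ} (hf : ∀ j, MemLp (f j) ∞ μ) :
    ∀ᵐ x ∂μ, Tendsto (fun M => boxAvg T P f x M - boxAvg T P (fun j => μ[f j | 𝒴]) x M)
      𝓕 (𝓝 0) := by
  classical
  have hYX : 𝒴 ≤ mX := by
    obtain ⟨lam, 𝒜, hK⟩ := hT.kol
    exact hK.base.trans hK.le
  choose g hg hfg using fun j => BM_of_memLp (hf j)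
  choose e he heY hee hfe using fun j => exists_cond (μ := μ) hYX (hg j)
  have hqm : ∀ (a : Multiplicative (Fin d → ℤ)) {p : X → Prop}, (∀ᵐ x ∂μ, p x) →
      ∀ᵐ x ∂μ, p (hom T hT.comm a x) := fun a p h =>
    (mp_act hT.mp hT.meas_symm a.toAdd).quasiMeasurePreserving.ae h
  have h1 : ∀ᵐ x ∂μ, ∀ (m : Fin k → ℕ) (j : Fin n),
      f j (hom T hT.comm (cc P j * pw (bb P j) m) x) =
        g j (hom T hT.comm (cc P j * pw (bb P j) m) x) := by
    rw [ae_all_iff]
    intro m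
    rw [ae_all_iff]
    intro j
    exact hqm _ (hfg j)
  have h2 : ∀ᵐ x ∂μ, ∀ (m : Fin k → ℕ) (j : Fin n),
      (μ[f j | 𝒴]) (hom T hT.comm (cc P j * pw (bb P j) m) x) =
        e j (hom T hT.comm (cc P j * pw (bb P j) m) x) := by
    rw [ae_all_iff]
    intro m
    rw [ae_all_iff]
    intro j
    have h3 : μ[f j | 𝒴] =ᵐ[μ] e j := (condExp_congr_ae (hfg j)).trans (hee j).symm
    exact hqm _ h3
  obtain ⟨lam, 𝒜, hK⟩ := hT.kol
  have hE := hK.ext hT.comm hT.mp hT.meas_symm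
  have hb1 := fun (v : Fin n) (l : Fin k) => hK.b1 P v l
  have hb2 : ∀ v w : Fin n, v ≠ w → ∃ l, ell lam (bb P v l) ≠ ell lam (bb P w l) := by
    intro v w hvw
    by_contra hcon
    push Not at hcon
    obtain ⟨l, i, hli⟩ := hdist v w hvw
    have h1 := hK.b2 P v w hcon
    exact hli (congrFun (congrArg Multiplicative.toAdd (congrFun h1 l)) i)
  have hb3 : ∀ v : Fin n, ∃ l, bb P v l ≠ 1 := by
    intro v
    obtain ⟨l, i, hli⟩ := hne v
    exact ⟨l, fun h0 => hli (congrFun (congrArg Multiplicative.toAdd h0) i)⟩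
  have hmain : ∀ᵐ x ∂μ, Tendsto (fun N => bxc k N fun m =>
      (∏ j, g j (hom T hT.comm (cc P j * pw (bb P j) m) x) -
        ∏ j, e j (hom T hT.comm (cc P j * pw (bb P j) m) x))) 𝓕 (𝓝 0) := by
    rcases hor with h | h
    · filter_upwards [char_gen hE (cc P) (bb P) hb1 hb2 hb3 hg he heY hfe
        (Or.inr fun v l h0 => by
          obtain ⟨i, hi⟩ := h v l
          exact hi (congrFun (congrArg Multiplicative.toAdd h0) i))] with x hx
      exact hx.mono_left h𝓕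
    · exact char_ecc hE ⟨h𝓕, h⟩ (cc P) (bb P) hb1 hb2 hb3 hg he heY hfe
  filter_upwards [hmain, h1, h2] with x hx hx1 hx2
  refine hx.congr fun N => ?_
  rw [boxAvg_eq T hT.comm P hP f x N, boxAvg_eq T hT.comm P hP (fun j => μ[f j | 𝒴]) x N,
    ← bxc_sub]
  congr 1
  funext m
  congr 1
  · exact Finset.prod_congr rfl fun j _ => (hx1 m j).symm
  · exact Finset.prod_congr rfl fun j _ => (hx2 m j).symm

end Pool.Agent.V11191.KB
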