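import Pool.Agent.TH784.KE.One

/-!
# Box averages for Kolmogorov extensions: ordered products of powers
-/

set_option autoImplicit false
set_option linter.unusedSectionVars false

open MeasureTheory Filter Topology
open scoped ENNReal

noncomputable section

namespace Pool.Agent.V11191.KB

open Pool.Agent.W761.Box (bx bxc BM Good1 bxc_add bxc_sub bxc_mul dz orb)
open Pool.Agent.TH784.KE

/-- The ordered product of powers. -/
def pw {G : Type*} [Group G] {k : ℕ} (b : Fin k → G) (n : Fin k → ℕ) : G :=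
  (List.ofFn fun l => b l ^ n l).prod

theorem pw_succ {G : Type*} [Group G] {k : ℕ} (b : Fin (k + 1) → G) (n : Fin (k + 1) → ℕ) :
    pw b n = b 0 ^ n 0 * pw (Fin.tail b) (Fin.tail n) := by
  unfold pw
  rw [List.ofFn_succ, List.prod_cons]
  rfl

/-- Deleting a trivial factor. -/
theorem prod_ofFn_succAbove {M : Type*} [Monoid M] : ∀ (k : ℕ) (f : Fin (k + 1) → M)
    (l : Fin (k + 1)), f l = 1 →
    (List.ofFn f).prod = (List.ofFn fun i => f (l.succAbove i)).prod := by
  intro k
  induction k with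
  | zero =>
    intro f l hl
    have h0 : l = 0 := Fin.ext (by omega)
    subst h0
    simp [hl]
  | succ k ih =>
    intro f l hl
    refine Fin.cases (motive := fun l => f l = 1 →
      (List.ofFn f).prod = (List.ofFn fun i => f (l.succAbove i)).prod) ?_ ?_ l hl
    · intro h0
      rw [List.ofFn_succ, List.prod_cons, h0, one_mul]
      simp only [Fin.zero_succAbove]
    · intro l' hl'
      rw [List.ofFn_succ, List.prod_cons, List.ofFn_succ (f := fun i => f (l'.succ.succAbove i)),
        List.prod_cons, Fin.succ_succAbove_zero]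
      congr 1
      rw [ih (fun i => f i.succ) l' hl']
      simp only [Fin.succ_succAbove_succ]

theorem pw_succAbove {G : Type*} [Group G] {k : ℕ} (b : Fin (k + 1) → G) (n : Fin (k + 1) → ℕ)
    (l : Fin (k + 1)) (hl : b l = 1) :
    pw b n = pw (fun i => b (l.succAbove i)) (fun i => n (l.succAbove i)) := by
  unfold pw
  exact prod_ofFn_succAbove k (fun l => b l ^ n l) l (by simp [hl])

theorem pw_update {G : Type*} [Group G] {k : ℕ} (b : Fin k → G) (n : Fin k → ℕ)
    (l : Fin k) (hl : b l = 1) (t : ℕ) : pw b (Function.update n l t) = pw b n := by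
  unfold pw
  congr 1
  congr 1
  funext l'
  by_cases h : l' = l
  · subst h
    simp [hl]
  · rw [Function.update_of_ne h]

/-- Deleting a variable. -/
theorem bxc_succAbove {k : ℕ} (N : Fin (k + 1) → ℕ) (l : Fin (k + 1)) (hN : 1 ≤ N l)
    (a : (Fin k → ℕ) → ℂ) :
    bxc (k + 1) N (fun m => a (fun i => m (l.succAbove i))) =
      bxc k (fun i => N (l.succAbove i)) a := by
  unfold Pool.Agent.W761.Box.bxc
  have h1 : ∑ m ∈ Fintype.piFinset (fun j => Finset.range (N j)),
      a (fun i => m (l.succAbove i)) =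
      ∑ p ∈ Finset.range (N l) ×ˢ Fintype.piFinset (fun i => Finset.range (N (l.succAbove i))),
        a p.2 := by
    refine Finset.sum_bij' (fun m _ => (m l, fun i => m (l.succAbove i)))
      (fun p _ => (l.insertNth p.1 p.2 : Fin (k + 1) → ℕ)) ?_ ?_ ?_ ?_ ?_
    · intro m hm
      rw [Fintype.mem_piFinset] at hm
      rw [Finset.mem_product, Fintype.mem_piFinset]
      exact ⟨hm l, fun i => hm _⟩
    · intro p hp
      rw [Finset.mem_product, Fintype.mem_piFinset] at hp
      rw [Fintype.mem_piFinset]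
      intro j
      rcases eq_or_ne j l with rfl | h
      · rw [Fin.insertNth_apply_same]
        exact hp.1
      · obtain ⟨i, rfl⟩ := Fin.exists_succAbove_eq h
        rw [Fin.insertNth_apply_succAbove]
        exact hp.2 i
    · intro m _
      funext j
      rcases eq_or_ne j l with rfl | h
      · rw [Fin.insertNth_apply_same]
      · obtain ⟨i, rfl⟩ := Fin.exists_succAbove_eq h
        rw [Fin.insertNth_apply_succAbove]
    · intro p _
      refine Prod.ext ?_ ?_
      · show (l.insertNth p.1 p.2 : Fin (k + 1) → ℕ) l = p.1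
        rw [Fin.insertNth_apply_same]
      · funext i
        show (l.insertNth p.1 p.2 : Fin (k + 1) → ℕ) (l.succAbove i) = p.2 i
        rw [Fin.insertNth_apply_succAbove]
    · intro m _
      rfl
  have hN' : (N l : ℂ) ≠ 0 := by
    have : N l ≠ 0 := by omega
    exact_mod_cast this
  have h2 : ∑ p ∈ Finset.range (N l) ×ˢ
      Fintype.piFinset (fun i => Finset.range (N (l.succAbove i))), a p.2 =
      (N l : ℂ) * ∑ m ∈ Fintype.piFinset (fun i => Finset.range (N (l.succAbove i))), a m := by
    rw [Finset.sum_product]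
    show ∑ _x ∈ Finset.range (N l),
      ∑ m ∈ Fintype.piFinset (fun i => Finset.range (N (l.succAbove i))), a m = _
    rw [Finset.sum_const, Finset.card_range, nsmul_eq_mul]
  rw [h1, h2, Fin.prod_univ_succAbove _ l, mul_inv]
  field_simp

variable {X : Type*} {mA mY mX : MeasurableSpace X} {μ : Measure X} [IsProbabilityMeasure μ]
variable {G : Type*} [Group G]
variable {Φ : G →* Equiv.Perm X} {ℓ : G → ℝ}
variable {J : Type*} [DecidableEq J] [Fintype J]

theorem ell_pw (hA : Filt mX mA Φ ℓ) : ∀ (k : ℕ) (b : Fin k → G) (n : Fin k → ℕ),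
    ℓ (pw b n) = ∑ l, n l • ℓ (b l)
  | 0, b, n => by simp [pw, hA.one]
  | k + 1, b, n => by
    rw [pw_succ, hA.hom, hA.pow, ell_pw hA k, Fin.sum_univ_succ, nsmul_eq_mul]
    rfl

theorem orb_pw (Φ : G →* Equiv.Perm X) : ∀ (k : ℕ) (b : Fin k → G) (n : Fin k → ℕ) (x : X),
    orb k (fun l => (Φ (b l) : X → X)) n x = Φ (pw b n) x
  | 0, b, n, x => by simp [orb, pw]
  | k + 1, b, n, x => by
    have h1 := orb_pw Φ k (Fin.tail b) (Fin.tail n) x
    show (Φ (b 0) : X → X)^[n 0] (orb k (Fin.tail fun l => (Φ (b l) : X → X)) (Fin.tail n) x) = _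
    rw [pw_succ, map_mul, Equiv.Perm.mul_apply, ← h1, map_pow, Equiv.Perm.coe_pow]
    rfl

theorem good_pw (hFl : Flow μ Φ) {k : ℕ} (c : G) (b : Fin k → G) :
    Good1 μ (fun n : Fin k → ℕ => (Φ (c * pw b n) : X → X)) := by
  intro H hH hb
  obtain ⟨C, hC⟩ := hb
  have h1 := dz k (fun l => (Φ (b l) : X → X)) (fun l => hFl (b l)) (fun x => H (Φ c x))
    (hH.comp (hFl c).measurable) C fun x => hC _
  filter_upwards [h1] with x hx
  obtain ⟨L, hL⟩ := hx
  refine ⟨L, hL.congr fun N => ?_⟩
  congr 1
  funext m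
  show H (Φ c (orb k (fun l => (Φ (b l) : X → X)) m x)) = H (Φ (c * pw b m) x)
  rw [orb_pw, map_mul, Equiv.Perm.mul_apply]

theorem tendsto_succAbove {k : ℕ} (l : Fin (k + 1)) :
    Tendsto (fun (N : Fin (k + 1) → ℕ) (i : Fin k) => N (l.succAbove i)) atTop atTop := by
  refine tendsto_atTop_atTop.2 fun B => ⟨l.insertNth 0 B, fun N hN i => ?_⟩
  have := hN (l.succAbove i)
  rwa [Fin.insertNth_apply_succAbove] at this

/-- Convergence to zero when the factors outside of `S` are constant. -/
theorem zero_triv (hK : KExt μ mA mY Φ ℓ) {s₀ : G} (hs₀ : 0 < ℓ s₀) {S : Finset J}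
    (hS : S.Nonempty) (c : J → G) {F : J → X → ℂ} (hF : ∀ v, AdmC μ mY S v (F v))
    (hFc : ∀ v ∉ S, ∃ z : ℂ, F v = fun _ => z) :
    ∀ (k : ℕ) (b : J → Fin k → G), (∀ v ∈ S, ∀ l, ℓ (b v l) = 0 → b v l = 1) →
    (∀ v ∈ S, ∀ w ∈ S, v ≠ w → ∃ l, ℓ (b v l) ≠ ℓ (b w l)) →
    (∀ v ∈ S, ∃ l, b v l ≠ 1) →
    Cz μ (fun v (n : Fin k → ℕ) => (Φ (c v * pw (b v) n) : X → X)) F := by
  have h1ℓ : ℓ 1 = 0 := hK.filt.one
  intro k
  induction k with
  | zero =>
    intro b _ _ h
    obtain ⟨v, hv⟩ := hS
    obtain ⟨l, _⟩ := h v hv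
    exact l.elim0
  | succ k ih =>
    intro b hb1 hb2 hb3
    by_cases hall : ∀ l, ∃ v ∈ S, ℓ (b v l) ≠ 0
    · refine zero_complex (k := k + 1) (S := S) (lam := fun v => ℓ (c v))
        (θ := fun v l => ℓ (b v l)) (Nat.succ_pos k) hK hs₀ ?_ ?_ hall hb2 ?_ hF
      · intro n v
        rw [hK.filt.hom, ell_pw hK.filt]
        rfl
      · intro v hv l hl n t
        show c v * pw (b v) (Function.update n l t) = c v * pw (b v) n
        rw [pw_update _ _ _ (hb1 v hv l hl)]
      · intro v
        exact good_pw hK.fl (c v) (b v)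
    · push Not at hall
      obtain ⟨l, hl⟩ := hall
      have hl1 : ∀ v ∈ S, b v l = 1 := fun v hv => hb1 v hv l (hl v hv)
      have hih := ih (fun v i => b v (l.succAbove i)) (fun v hv i h => hb1 v hv _ h)
        (fun v hv w hw hvw => by
          obtain ⟨l', hl'⟩ := hb2 v hv w hw hvw
          have hne : l' ≠ l := by
            rintro rfl
            rw [hl1 v hv, hl1 w hw] at hl'
            exact hl' rfl
          obtain ⟨i, rfl⟩ := Fin.exists_succAbove_eq hne
          exact ⟨i, hl'⟩)
        (fun v hv => by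
          obtain ⟨l', hl'⟩ := hb3 v hv
          have hne : l' ≠ l := by
            rintro rfl
            exact hl' (hl1 v hv)
          obtain ⟨i, rfl⟩ := Fin.exists_succAbove_eq hne
          exact ⟨i, hl'⟩)
      filter_upwards [hih] with x hx
      have hx' := hx.comp (tendsto_succAbove l)
      refine hx'.congr' ?_
      filter_upwards [eventually_ge_atTop (fun _ : Fin (k + 1) => 1)] with N hN
      rw [Function.comp_apply, ← bxc_succAbove N l (hN l)]
      congr 1
      funext m
      refine Finset.prod_congr rfl fun v _ => ?_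
      by_cases hv : v ∈ S
      · rw [pw_succAbove (b v) m l (hl1 v hv)]
      · obtain ⟨z, hz⟩ := hFc v hv
        rw [hz]

end Pool.Agent.V11191.KB
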