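import Pool.Agent.V11191.KB.Eig

/-!
# Kolmogorov extensions of factors with discrete spectrum: convergence
-/

set_option autoImplicit false
set_option linter.unusedSectionVars false

open MeasureTheory Filter Topology
open scoped ENNReal

noncomputable section

namespace Pool.Agent.V11191.KB

open Pool.Agent.W761.Box (bx bxc BM Good1 bxc_add bxc_sub bxc_mul dz orb Cv Cv_add Cv_smul
  Cv_zero Cv_closed bxc_bound)
open Pool.Agent.TH784.KE

variable {X : Type*} {mA mY mX : MeasurableSpace X} {μ : Measure X} [IsProbabilityMeasure μ]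
variable {G : Type*} [Group G]
variable {Φ : G →* Equiv.Perm X} {ℓ : G → ℝ}
variable {J : Type*} [DecidableEq J] [Fintype J]

/-- Products of eigenfunctions. -/
theorem cv_eigs {k : ℕ} (c : J → G) (b : J → Fin k → G) {F : J → X → ℂ}
    (hFe : ∀ v, Eig μ mY Φ (F v)) :
    Cv μ (fun v (n : Fin k → ℕ) => (Φ (c v * pw (b v) n) : X → X)) F := by
  choose hm hb α hα1 hα2 using hFe
  have hcount : ∀ᵐ x ∂μ, ∀ (v : J) (n : Fin k → ℕ),
      F v (Φ (c v * pw (b v) n) x) = α v (c v * pw (b v) n) * F v x := by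
    rw [ae_all_iff]
    intro v
    rw [ae_all_iff]
    exact fun n => hα2 v _
  set β : Fin k → ℂ := fun l => ∏ v, α v (b v l) with hβ
  have hβ1 : ∀ l, ‖β l‖ = 1 := by
    intro l
    rw [hβ, norm_prod]
    exact Finset.prod_eq_one fun v _ => hα1 v _
  choose L hL using fun l => geom_conv (hβ1 l)
  filter_upwards [hcount] with x hx
  refine ⟨(∏ v, (α v (c v) * F v x)) * ∏ l, L l, ?_⟩
  have h1 : Tendsto (fun N : Fin k → ℕ => ∏ l, ((N l : ℂ)⁻¹ *
      ∑ t ∈ Finset.range (N l), β l ^ t)) atTop (𝓝 (∏ l, L l)) := by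
    refine tendsto_finsetProd _ fun l _ => ?_
    refine (hL l).comp ?_
    exact tendsto_atTop_atTop.2 fun B => ⟨fun _ => B, fun N hN => hN l⟩
  refine (h1.const_mul (∏ v, (α v (c v) * F v x))).congr fun N => ?_
  rw [← bxc_geom, ← bxc_mul]
  congr 1
  funext n
  show (∏ v, (α v (c v) * F v x)) * ∏ l, β l ^ n l = ∏ v, F v (Φ (c v * pw (b v) n) x)
  have h2 : ∏ l, β l ^ n l = ∏ v, ∏ l, α v (b v l) ^ n l := by
    rw [Finset.prod_comm]
    refine Finset.prod_congr rfl fun l _ => ?_
    rw [hβ, Finset.prod_pow]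
  rw [h2, ← Finset.prod_mul_distrib]
  refine Finset.prod_congr rfl fun v _ => ?_
  rw [hx v n, map_mul, alpha_pw]
  ring

/-- Functions that are eigenfunctions or have vanishing conditional expectations. -/
theorem cv_class (hK : KExt μ mA mY Φ ℓ) {k : ℕ} (c : J → G) (b : J → Fin k → G)
    (hb1 : ∀ v l, ℓ (b v l) = 0 → b v l = 1)
    (hb2 : ∀ v w, v ≠ w → ∃ l, ℓ (b v l) ≠ ℓ (b w l))
    (hb3 : ∀ v, ∃ l, b v l ≠ 1) {S : Finset J} {F : J → X → ℂ}
    (hF : ∀ v ∈ S, @BM X mX (F v) ∧ ∀ B : Set X, MeasurableSet[mY] B → ∫ x in B, F v x ∂μ = 0)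
    (hFe : ∀ v ∉ S, Eig μ mY Φ (F v)) :
    Cv μ (fun v (n : Fin k → ℕ) => (Φ (c v * pw (b v) n) : X → X)) F := by
  have hYX : mY ≤ mX := hK.base.le.trans hK.filt.le
  rcases S.eq_empty_or_nonempty with hS | ⟨j₀, hj₀⟩
  · subst hS
    exact cv_eigs c b fun v => hFe v (Finset.notMem_empty v)
  · obtain ⟨l₀, hl₀⟩ := hb3 j₀
    have hne : ℓ (b j₀ l₀) ≠ 0 := fun h => hl₀ (hb1 _ _ h)
    obtain ⟨s₀, hs₀⟩ : ∃ s₀ : G, 0 < ℓ s₀ := by
      rcases lt_or_gt_of_ne hne with h | h
      · exact ⟨(b j₀ l₀)⁻¹, by rw [hK.filt.inv]; linarith⟩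
      · exact ⟨b j₀ l₀, h⟩
    have h := zero_eig hK hs₀ ⟨j₀, hj₀⟩ c (F := F) (fun v => ⟨by
      by_cases hv : v ∈ S
      · exact (hF v hv).1
      · exact (hFe v hv).bm hYX, fun hv => (hF v hv).2, fun hv => (hFe v hv).1⟩) hFe k b
      (fun v _ l => hb1 v l) (fun v _ w _ hvw => hb2 v w hvw) (fun v _ => hb3 v)
    filter_upwards [h] with x hx
    exact ⟨0, hx⟩

/-- The factor has discrete spectrum. -/
def Disc (μ : Measure X) (mY : MeasurableSpace X) (Φ : G →* Equiv.Perm X) : Prop :=
  ∀ e : X → ℂ, Measurable[mY] e → (∃ C : ℝ, ∀ x, ‖e x‖ ≤ C) → ∀ ε : ℝ, 0 < ε →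
    ∃ e' ∈ Submodule.span ℂ {χ : X → ℂ | Eig μ mY Φ χ}, ∫ x, ‖e x - e' x‖ ∂μ ≤ ε

theorem bm_span (hYX : mY ≤ mX) {e : X → ℂ}
    (he : e ∈ Submodule.span ℂ {χ : X → ℂ | Eig μ mY Φ χ}) : @BM X mX e := by
  induction he using Submodule.span_induction with
  | mem χ h => exact h.bm hYX
  | zero => exact ⟨measurable_const, 0, fun x => by simp⟩
  | add f g _ _ hf hg =>
    obtain ⟨m₁, C₁, b₁⟩ := hf
    obtain ⟨m₂, C₂, b₂⟩ := hg
    exact ⟨m₁.add m₂, C₁ + C₂, fun x => (norm_add_le _ _).trans (add_le_add (b₁ x) (b₂ x))⟩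
  | smul z f _ hf =>
    obtain ⟨m₁, C₁, b₁⟩ := hf
    refine ⟨m₁.const_smul z, ‖z‖ * C₁, fun x => ?_⟩
    rw [Pi.smul_apply, smul_eq_mul, norm_mul]
    exact mul_le_mul_of_nonneg_left (b₁ x) (norm_nonneg z)

/-- **Distinct nontrivial forms, arbitrary bounded functions.** -/
theorem cv_distinct (hK : KExt μ mA mY Φ ℓ) (hD : Disc μ mY Φ) {k : ℕ} (c : J → G)
    (b : J → Fin k → G)
    (hb1 : ∀ v l, ℓ (b v l) = 0 → b v l = 1)
    (hb2 : ∀ v w, v ≠ w → ∃ l, ℓ (b v l) ≠ ℓ (b w l))
    (hb3 : ∀ v, ∃ l, b v l ≠ 1) {F : J → X → ℂ} (hF : ∀ v, @BM X mX (F v)) :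
    Cv μ (fun v (n : Fin k → ℕ) => (Φ (c v * pw (b v) n) : X → X)) F := by
  classical
  have hYX : mY ≤ mX := hK.base.le.trans hK.filt.le
  set g : J → (Fin k → ℕ) → X → X := fun v n => (Φ (c v * pw (b v) n) : X → X) with hg
  have hgood : ∀ v, Good1 μ (g v) := fun v => good_pw hK.fl (c v) (b v)
  have key : ∀ (B : Finset J) (S : Finset J) (F : J → X → ℂ), (∀ v ∈ B, @BM X mX (F v)) →
      (∀ v ∉ B, (v ∈ S → @BM X mX (F v) ∧
        ∀ B : Set X, MeasurableSet[mY] B → ∫ x in B, F v x ∂μ = 0) ∧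
        (v ∉ S → Eig μ mY Φ (F v))) → Cv μ g F := by
    intro B
    induction B using Finset.induction_on with
    | empty =>
      intro S F _ h
      exact cv_class hK c b hb1 hb2 hb3 (fun v hv => (h v (Finset.notMem_empty v)).1 hv)
        fun v hv => (h v (Finset.notMem_empty v)).2 hv
    | insert v B hv ih =>
      intro S F hFB hFn
      have hBMall : ∀ w, @BM X mX (F w) := by
        intro w
        by_cases hw : w ∈ insert v B
        · exact hFB w hw
        · by_cases hwS : w ∈ S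
          · exact ((hFn w hw).1 hwS).1
          · exact ((hFn w hw).2 hwS).bm hYX
      have hvB := hFB v (Finset.mem_insert_self v B)
      obtain ⟨e, heB, hem, -, hev⟩ := exists_cond (μ := μ) hYX hvB
      have h1 : Cv μ g (Function.update F v (F v - e)) := by
        refine ih (insert v S) _ (fun w hw => ?_) (fun w hw => ?_)
        · have hwv : w ≠ v := fun h => hv (h ▸ hw)
          rw [Function.update_of_ne hwv]
          exact hFB w (Finset.mem_insert_of_mem hw)
        · by_cases hwv : w = v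
          · subst hwv
            rw [Function.update_self]
            refine ⟨fun _ => ⟨?_, fun B hB => hev B hB⟩,
              fun h => absurd (Finset.mem_insert_self _ _) h⟩
            obtain ⟨m₁, C₁, b₁⟩ := hvB
            obtain ⟨m₂, C₂, b₂⟩ := heB
            exact ⟨m₁.sub m₂, C₁ + C₂, fun x => (norm_sub_le _ _).trans
              (add_le_add (b₁ x) (b₂ x))⟩
          · rw [Function.update_of_ne hwv]
            have hw' : w ∉ insert v B := by
              rw [Finset.mem_insert]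
              push Not
              exact ⟨hwv, hw⟩
            refine ⟨fun h => (hFn w hw').1 (Finset.mem_of_mem_insert_of_ne h hwv),
              fun h => (hFn w hw').2 fun h2 => h (Finset.mem_insert_of_mem h2)⟩
      have h2 : Cv μ g (Function.update F v e) := by
        refine Cv_closed (fun w n => hK.fl _) hgood hBMall heB fun ε hε => ?_
        obtain ⟨C, hC⟩ := heB.2
        obtain ⟨e', he', hee'⟩ := hD e hem ⟨C, hC⟩ ε hε
        refine ⟨e', bm_span hYX he', hee', ?_⟩
        clear hee'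
        induction he' using Submodule.span_induction with
        | mem χ hχ =>
          refine ih (S.erase v) _ (fun w hw => ?_) (fun w hw => ?_)
          · have hwv : w ≠ v := fun h => hv (h ▸ hw)
            rw [Function.update_of_ne hwv]
            exact hFB w (Finset.mem_insert_of_mem hw)
          · by_cases hwv : w = v
            · subst hwv
              rw [Function.update_self]
              exact ⟨fun h => absurd h (Finset.notMem_erase _ _), fun _ => hχ⟩
            · rw [Function.update_of_ne hwv]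
              have hw' : w ∉ insert v B := by
                rw [Finset.mem_insert]
                push Not
                exact ⟨hwv, hw⟩
              exact ⟨fun h => (hFn w hw').1 (Finset.mem_of_mem_erase h),
                fun h => (hFn w hw').2 fun h2 => h (Finset.mem_erase.2 ⟨hwv, h2⟩)⟩
        | zero => exact Cv_zero
        | add f f' _ _ hf hf' => exact Cv_add hf hf'
        | smul z f _ hf => exact Cv_smul z hf
      have h3 := Cv_add h1 h2
      rw [sub_add_cancel, Function.update_eq_self] at h3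
      exact h3
  exact key Finset.univ ∅ F (fun v _ => hF v) fun v hv => absurd (Finset.mem_univ v) hv

/-- **Arbitrary forms.** -/
theorem conv_disc (hK : KExt μ mA mY Φ ℓ) (hD : Disc μ mY Φ) {k : ℕ} (c : J → G)
    (b : J → Fin k → G)
    (hb1 : ∀ v l, ℓ (b v l) = 0 → b v l = 1)
    (hb2 : ∀ v w, (∀ l, ℓ (b v l) = ℓ (b w l)) → b v = b w)
    {f : J → X → ℂ} (hf : ∀ j, @BM X mX (f j)) :
    ∀ᵐ x ∂μ, ∃ L : ℂ, Tendsto (fun N => bxc k N fun n => ∏ j, f j (Φ (c j * pw (b j) n) x))
      atTop (𝓝 L) := by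
  classical
  set R : Finset (Fin k → G) := (Finset.univ.image b).erase (fun _ => 1) with hR
  set F : (Fin k → G) → X → ℂ := fun r x => ∏ j ∈ Finset.univ.filter (fun j => b j = r),
    f j (Φ (c j) x) with hF
  have hFB : ∀ r, @BM X mX (F r) := by
    intro r
    choose hm C hC using hf
    refine ⟨?_, ∏ j ∈ Finset.univ.filter (fun j => b j = r), C j, fun x => ?_⟩
    · exact Finset.measurable_prod _ fun j _ => (hm j).comp (hK.fl (c j)).measurable
    · rw [hF, norm_prod]
      exact Finset.prod_le_prod (fun j _ => norm_nonneg _) fun j _ => hC j _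
  have hmem : ∀ r : {r // r ∈ R}, ∃ v, b v = r.1 ∧ r.1 ≠ fun _ => 1 := by
    rintro ⟨r, hr⟩
    rw [hR, Finset.mem_erase, Finset.mem_image] at hr
    obtain ⟨h1, v, _, hv⟩ := hr
    exact ⟨v, hv, h1⟩
  have hmain := cv_distinct (J := {r // r ∈ R}) hK hD (fun _ => 1) (fun r => r.1)
    (fun r l h => by
      obtain ⟨v, hv, _⟩ := hmem r
      rw [← hv] at h ⊢
      exact hb1 v l h)
    (fun r r' hrr' => by
      obtain ⟨v, hv, _⟩ := hmem r
      obtain ⟨w, hw, _⟩ := hmem r'
      by_contra hcon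
      push Not at hcon
      apply hrr'
      apply Subtype.ext
      rw [← hv, ← hw] at hcon ⊢
      exact hb2 v w hcon)
    (fun r => by
      obtain ⟨v, hv, hne⟩ := hmem r
      by_contra hcon
      push Not at hcon
      exact hne (funext hcon))
    (F := fun r => F r.1) (fun r => hFB r.1)
  filter_upwards [hmain] with x hx
  obtain ⟨L, hL⟩ := hx
  refine ⟨_, (hL.const_mul (F (fun _ => 1) x)).congr fun N => ?_⟩
  rw [← bxc_mul]
  congr 1
  funext n
  have hpw1 : pw (fun _ : Fin k => (1 : G)) n = 1 := by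
    unfold pw
    simp
  have e1 : ∏ r : {r // r ∈ R}, F r.1 (Φ (1 * pw r.1 n) x) = ∏ r ∈ R, F r (Φ (pw r n) x) := by
    rw [← Finset.prod_coe_sort R (fun r => F r (Φ (pw r n) x))]
    refine Finset.prod_congr rfl fun r _ => ?_
    rw [one_mul]
  have e2 : ∏ j, f j (Φ (c j * pw (b j) n) x) =
      ∏ r ∈ insert (fun _ => 1) (Finset.univ.image b), F r (Φ (pw r n) x) := by
    rw [← Finset.prod_fiberwise_of_maps_to (s := Finset.univ)
      (t := insert (fun _ => 1) (Finset.univ.image b)) (g := b)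
      (fun j _ => Finset.mem_insert_of_mem (Finset.mem_image_of_mem b (Finset.mem_univ j)))]
    refine Finset.prod_congr rfl fun r _ => ?_
    rw [hF]
    refine Finset.prod_congr rfl fun j hj => ?_
    rw [(Finset.mem_filter.1 hj).2, map_mul, Equiv.Perm.mul_apply]
  have e3 : insert (fun _ => 1) (Finset.univ.image b) = insert (fun _ => 1) R := by
    rw [hR]
    ext r
    simp only [Finset.mem_insert, Finset.mem_erase]
    tauto
  show F (fun _ => 1) x * ∏ r : {r // r ∈ R}, F r.1 (Φ (1 * pw r.1 n) x) = _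
  rw [e1, e2, e3, Finset.prod_insert (by rw [hR]; exact Finset.notMem_erase _ _), hpw1, map_one,
    Equiv.Perm.one_apply]

end Pool.Agent.V11191.KB
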