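import Pool.Agent.V11191.KB.Base

/-!
# Box averages for Kolmogorov extensions: actions of `ℤ^d`
-/

set_option autoImplicit false
set_option linter.unusedSectionVars false

open MeasureTheory Filter Topology
open scoped ENNReal

noncomputable section

namespace Pool.Agent.V11191.KB

open Pool.Agent.W761.Box (bx bxc BM Good1 bxc_add bxc_sub bxc_mul dz orb prod_zpow_add eval_affine)
open Pool.Agent.W761.Gauss (BM_of_memLp)
open Pool.Agent.TH784.KE

/-- `T^a = T_1^(a_1) ⋯ T_d^(a_d)`. -/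
def act {X : Type*} {d : ℕ} (T : Fin d → Equiv.Perm X) (a : Fin d → ℤ) : Equiv.Perm X :=
  (List.ofFn fun i => T i ^ a i).prod

/-- `𝒜` is a Kolmogorov `σ`-algebra over the factor `𝒴` in the direction `lam`: with
`T^a = T_1^(a_1) ⋯ T_d^(a_d)` and `⟨a, lam⟩ = ∑ a_i lam_i`,

* `⟨a, lam⟩ ≠ 0` for every nonzero integer vector `a`,
* `𝒴 ⊆ 𝒜`, and `𝒴` is invariant under the action,
* `(T^a)⁻¹ 𝒜 ⊆ 𝒜` whenever `⟨a, lam⟩ ≤ 0`,
* the `(T^a)⁻¹ 𝒜` generate all measurable sets modulo `μ`,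
* the intersection of the `(T^a)⁻¹ 𝒜` is contained in `𝒴` modulo `μ`. -/
structure Kol {X : Type*} (𝒜 𝒴 : MeasurableSpace X) {mX : MeasurableSpace X} (μ : Measure X)
    {d : ℕ} (T : Fin d → Equiv.Perm X) (lam : Fin d → ℝ) : Prop where
  indep : ∀ a : Fin d → ℤ, ∑ i, (a i : ℝ) * lam i = 0 → a = 0
  le : 𝒜 ≤ mX
  base : 𝒴 ≤ 𝒜
  inv : ∀ a, Measurable[𝒴, 𝒴] (act T a : X → X)
  mono : ∀ a : Fin d → ℤ, ∑ i, (a i : ℝ) * lam i ≤ 0 → 𝒜.comap (act T a : X → X) ≤ 𝒜
  gen : ∀ B, MeasurableSet[mX] B →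
    ∃ B', MeasurableSet[⨆ a, 𝒜.comap (act T a : X → X)] B' ∧ B =ᵐ[μ] B'
  tail : ∀ B, (∀ a, MeasurableSet[𝒜.comap (act T a : X → X)] B) →
    ∃ B', MeasurableSet[𝒴] B' ∧ B =ᵐ[μ] B'

/-- `T_1, …, T_d` are commuting, invertible, bi-measurable and measure preserving, and the action
of `ℤ^d` they generate is a Kolmogorov extension of its factor `𝒴`. For `d = 1` and `𝒴` trivial
this says that `T_1` or its inverse is a `K`-automorphism. -/
structure IsKExtension {X : Type*} (𝒴 : MeasurableSpace X) {mX : MeasurableSpace X}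
    (μ : Measure X) {d : ℕ} (T : Fin d → Equiv.Perm X) : Prop where
  comm : ∀ i j, Commute (T i) (T j)
  mp : ∀ i, MeasurePreserving (T i) μ μ
  meas_symm : ∀ i, Measurable (T i).symm
  kol : ∃ (lam : Fin d → ℝ) (𝒜 : MeasurableSpace X), Kol 𝒜 𝒴 μ T lam

/-- Bounded joint eigenfunctions measurable with respect to `𝒴`. -/
structure IsEigenfunction {X : Type*} (𝒴 : MeasurableSpace X) {mX : MeasurableSpace X}
    (μ : Measure X) {d : ℕ} (T : Fin d → Equiv.Perm X) (χ : X → ℂ) : Prop where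
  meas : Measurable[𝒴] χ
  bdd : ∃ C : ℝ, ∀ x, ‖χ x‖ ≤ C
  eig : ∀ i, ∃ z : ℂ, ‖z‖ = 1 ∧ ∀ᵐ x ∂μ, χ (T i x) = z * χ x

/-- The factor `𝒴` has discrete spectrum: the linear combinations of joint eigenfunctions are
dense, in the `L¹`-norm, in the bounded `𝒴`-measurable functions. -/
def HasDiscreteSpectrum {X : Type*} (𝒴 : MeasurableSpace X) {mX : MeasurableSpace X}
    (μ : Measure X) {d : ℕ} (T : Fin d → Equiv.Perm X) : Prop :=
  ∀ e : X → ℂ, Measurable[𝒴] e → (∃ C : ℝ, ∀ x, ‖e x‖ ≤ C) → ∀ ε : ℝ, 0 < ε →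
    ∃ e' ∈ Submodule.span ℂ {χ : X → ℂ | IsEigenfunction 𝒴 μ T χ}, ∫ x, ‖e x - e' x‖ ∂μ ≤ ε

/-- The average of `∏_j f_j (T_1^(P_1j(m)) ⋯ T_d^(P_dj(m)) x)` over `m` in the box
`[0, M_1) × ⋯ × [0, M_k)`. -/
def boxAvg {X : Type*} {d k n : ℕ} (T : Fin d → Equiv.Perm X)
    (P : Fin d → Fin n → MvPolynomial (Fin k) ℤ) (f : Fin n → X → ℂ) (x : X)
    (M : Fin k → ℕ) : ℂ :=
  (∏ j, (M j : ℂ))⁻¹ * ∑ m ∈ Fintype.piFinset (fun j => Finset.range (M j)),
    ∏ j : Fin n, f j ((List.ofFn fun i : Fin d =>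
      T i ^ (MvPolynomial.eval (fun l => ((m l : ℕ) : ℤ)) (P i j))).prod x)

theorem mp_inv {X : Type*} [MeasurableSpace X] {μ : Measure X} {e : Equiv.Perm X}
    (h : MeasurePreserving e μ μ) (h' : Measurable e.symm) :
    MeasurePreserving (e⁻¹ : Equiv.Perm X) μ μ := by
  let e' : X ≃ᵐ X := ⟨e, h.measurable, h'⟩
  exact h.symm e'

theorem mp_zpow {X : Type*} [MeasurableSpace X] {μ : Measure X} {e : Equiv.Perm X}
    (h : MeasurePreserving e μ μ) (h' : Measurable e.symm) (z : ℤ) :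
    MeasurePreserving (e ^ z : Equiv.Perm X) μ μ := by
  rcases z with n | n
  · rw [Int.ofNat_eq_natCast, zpow_natCast, Equiv.Perm.coe_pow]
    exact h.iterate n
  · rw [zpow_negSucc, ← inv_pow, Equiv.Perm.coe_pow]
    exact (mp_inv h h').iterate (n + 1)

theorem mp_list {X : Type*} [MeasurableSpace X] {μ : Measure X} (L : List (Equiv.Perm X))
    (h : ∀ e ∈ L, MeasurePreserving (e : X → X) μ μ) :
    MeasurePreserving (L.prod : Equiv.Perm X) μ μ := by
  induction L with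
  | nil =>
    rw [List.prod_nil, Equiv.Perm.coe_one]
    exact MeasurePreserving.id μ
  | cons e L ih =>
    rw [List.prod_cons, Equiv.Perm.coe_mul]
    exact (h e List.mem_cons_self).comp (ih fun e' he' => h e' (List.mem_cons_of_mem _ he'))

theorem mp_act {X : Type*} [MeasurableSpace X] {μ : Measure X} {d : ℕ}
    {T : Fin d → Equiv.Perm X} (h : ∀ i, MeasurePreserving (T i) μ μ)
    (h' : ∀ i, Measurable (T i).symm) (a : Fin d → ℤ) : MeasurePreserving (act T a) μ μ := by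
  refine mp_list _ fun e he => ?_
  obtain ⟨i, rfl⟩ := (List.mem_ofFn' _ _).mp he
  exact mp_zpow (h i) (h' i) _

section eigen

variable {X : Type*} [MeasurableSpace X] {μ : Measure X} {χ : X → ℂ}

theorem eig_mul {e e' : Equiv.Perm X} {z z' : ℂ} (he' : MeasurePreserving e' μ μ)
    (h : ∀ᵐ x ∂μ, χ (e x) = z * χ x) (h' : ∀ᵐ x ∂μ, χ (e' x) = z' * χ x) :
    ∀ᵐ x ∂μ, χ ((e * e' : Equiv.Perm X) x) = (z * z') * χ x := by
  filter_upwards [he'.quasiMeasurePreserving.ae h, h'] with x h1 h2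
  rw [Equiv.Perm.mul_apply, h1, h2, mul_assoc]

theorem eig_inv {e : Equiv.Perm X} {z : ℂ} (hz : z ≠ 0)
    (he : MeasurePreserving (e⁻¹ : Equiv.Perm X) μ μ)
    (h : ∀ᵐ x ∂μ, χ (e x) = z * χ x) : ∀ᵐ x ∂μ, χ ((e⁻¹ : Equiv.Perm X) x) = z⁻¹ * χ x := by
  filter_upwards [he.quasiMeasurePreserving.ae h] with x h1
  rw [← Equiv.Perm.mul_apply, mul_inv_cancel, Equiv.Perm.one_apply] at h1
  rw [h1, ← mul_assoc, inv_mul_cancel₀ hz, one_mul]

theorem eig_pow {e : Equiv.Perm X} {z : ℂ} (he : MeasurePreserving e μ μ)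
    (h : ∀ᵐ x ∂μ, χ (e x) = z * χ x) (n : ℕ) :
    ∀ᵐ x ∂μ, χ ((e ^ n : Equiv.Perm X) x) = z ^ n * χ x := by
  induction n with
  | zero => exact Eventually.of_forall fun x => by simp
  | succ n ih =>
    rw [pow_succ, pow_succ]
    exact eig_mul he ih h

theorem eig_zpow {e : Equiv.Perm X} {z : ℂ} (hz : z ≠ 0) (he : MeasurePreserving e μ μ)
    (he' : Measurable e.symm) (h : ∀ᵐ x ∂μ, χ (e x) = z * χ x) (n : ℤ) :
    ∀ᵐ x ∂μ, χ ((e ^ n : Equiv.Perm X) x) = z ^ n * χ x := by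
  rcases n with n | n
  · rw [Int.ofNat_eq_natCast, zpow_natCast, zpow_natCast]
    exact eig_pow he h n
  · rw [zpow_negSucc, zpow_negSucc, ← inv_pow, ← inv_pow]
    exact eig_pow (mp_inv he he') (eig_inv hz (mp_inv he he') h) (n + 1)

theorem eig_act : ∀ (d : ℕ) (T : Fin d → Equiv.Perm X) (z : Fin d → ℂ) (a : Fin d → ℤ),
    (∀ i, z i ≠ 0) → (∀ i, MeasurePreserving (T i) μ μ) → (∀ i, Measurable (T i).symm) →
    (∀ i, ∀ᵐ x ∂μ, χ (T i x) = z i * χ x) →
    ∀ᵐ x ∂μ, χ (act T a x) = (∏ i, z i ^ a i) * χ x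
  | 0, T, z, a, _, _, _, _ => Eventually.of_forall fun x => by simp [act]
  | d + 1, T, z, a, hz, hT, hT', h => by
    have ih := eig_act d (fun i => T i.succ) (fun i => z i.succ) (fun i => a i.succ)
      (fun i => hz _) (fun i => hT _) (fun i => hT' _) (fun i => h _)
    have h0 := eig_zpow (hz 0) (hT 0) (hT' 0) (h 0) (a 0)
    have h1 := eig_mul (mp_act (T := fun i : Fin d => T i.succ) (fun i => hT _) (fun i => hT' _)
      (fun i => a i.succ)) h0 ih
    rw [Fin.prod_univ_succ]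
    have e : act T a = T 0 ^ a 0 * act (fun i : Fin d => T i.succ) (fun i => a i.succ) := by
      unfold act
      rw [List.ofFn_succ, List.prod_cons]
    rw [e]
    exact h1

end eigen

/-- The homomorphism of commuting maps. -/
def hom {X : Type*} {d : ℕ} (T : Fin d → Equiv.Perm X) (hc : ∀ i j, Commute (T i) (T j)) :
    Multiplicative (Fin d → ℤ) →* Equiv.Perm X where
  toFun a := act T a.toAdd
  map_one' := by simp [act]
  map_mul' a b := by
    rw [toAdd_mul]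
    exact prod_zpow_add T hc _ _

/-- The homomorphism to the reals. -/
def ell {d : ℕ} (lam : Fin d → ℝ) (a : Multiplicative (Fin d → ℤ)) : ℝ :=
  ∑ i, (a.toAdd i : ℝ) * lam i

theorem ell_mul {d : ℕ} (lam : Fin d → ℝ) (a b : Multiplicative (Fin d → ℤ)) :
    ell lam (a * b) = ell lam a + ell lam b := by
  unfold ell
  rw [toAdd_mul, ← Finset.sum_add_distrib]
  refine Finset.sum_congr rfl fun i _ => ?_
  rw [Pi.add_apply]
  push_cast
  ring

theorem Kol.ext {X : Type*} {𝒜 𝒴 : MeasurableSpace X} {mX : MeasurableSpace X} {μ : Measure X}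
    {d : ℕ} {T : Fin d → Equiv.Perm X} (hc : ∀ i j, Commute (T i) (T j))
    (h : ∀ i, MeasurePreserving (T i) μ μ) (h' : ∀ i, Measurable (T i).symm)
    {lam : Fin d → ℝ} (hK : Kol 𝒜 𝒴 μ T lam) :
    KExt μ 𝒜 𝒴 (hom T hc) (ell lam) where
  fl _ := mp_act h h' _
  filt := ⟨ell_mul lam, hK.le, fun _ ha => hK.mono _ ha⟩
  base := ⟨hK.base, fun _ => hK.inv _⟩
  gen := hK.gen
  tail := hK.tail

/-- The character of an eigenfunction. -/
def chr {d : ℕ} (z : Fin d → ℂ) (hz : ∀ i, z i ≠ 0) : Multiplicative (Fin d → ℤ) →* ℂ where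
  toFun a := ∏ i, z i ^ (a.toAdd i)
  map_one' := by simp
  map_mul' a b := by
    rw [toAdd_mul, ← Finset.prod_mul_distrib]
    refine Finset.prod_congr rfl fun i _ => ?_
    rw [Pi.add_apply, zpow_add₀ (hz i)]

theorem eig_of {X : Type*} {𝒴 : MeasurableSpace X} {mX : MeasurableSpace X} {μ : Measure X}
    {d : ℕ} {T : Fin d → Equiv.Perm X} (hc : ∀ i j, Commute (T i) (T j))
    (h : ∀ i, MeasurePreserving (T i) μ μ) (h' : ∀ i, Measurable (T i).symm) {χ : X → ℂ}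
    (hχ : IsEigenfunction 𝒴 μ T χ) : Eig μ 𝒴 (hom T hc) χ := by
  choose z hz1 hz2 using hχ.eig
  have hz0 : ∀ i, z i ≠ 0 := fun i h0 => by
    have := hz1 i
    rw [h0, norm_zero] at this
    exact zero_ne_one this
  refine ⟨hχ.meas, hχ.bdd, chr z hz0, fun g => ?_, fun g => ?_⟩
  · show ‖∏ i, z i ^ (g.toAdd i)‖ = 1
    rw [norm_prod]
    refine Finset.prod_eq_one fun i _ => ?_
    rw [norm_zpow, hz1 i, one_zpow]
  · exact eig_act d T z g.toAdd hz0 h h' hz2

theorem disc_of {X : Type*} {𝒴 : MeasurableSpace X} {mX : MeasurableSpace X} {μ : Measure X}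
    {d : ℕ} {T : Fin d → Equiv.Perm X} (hc : ∀ i j, Commute (T i) (T j))
    (h : ∀ i, MeasurePreserving (T i) μ μ) (h' : ∀ i, Measurable (T i).symm)
    (hD : HasDiscreteSpectrum 𝒴 μ T) : Disc μ 𝒴 (hom T hc) := by
  intro e he hb ε hε
  obtain ⟨e', he', hee'⟩ := hD e he hb ε hε
  exact ⟨e', Submodule.span_mono (fun χ hχ => eig_of hc h h' hχ) he', hee'⟩

/-- The trivial factor has discrete spectrum. -/
theorem disc_bot {X : Type*} {mX : MeasurableSpace X} {μ : Measure X}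
    {d : ℕ} {T : Fin d → Equiv.Perm X} : HasDiscreteSpectrum ⊥ μ T := by
  intro e he _ ε hε
  refine ⟨e, Submodule.subset_span ⟨he, ?_, fun i => ⟨1, norm_one, ?_⟩⟩, by simpa using hε.le⟩
  · rcases isEmpty_or_nonempty X with hX | ⟨⟨x₀⟩⟩
    · exact ⟨0, fun x => (hX.false x).elim⟩
    · refine ⟨‖e x₀‖, fun x => ?_⟩
      have h1 : MeasurableSet[⊥] (e ⁻¹' {e x₀}) := he (measurableSet_singleton _)
      rcases MeasurableSpace.measurableSet_bot_iff.1 h1 with h2 | h2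
      · exact absurd (show x₀ ∈ e ⁻¹' {e x₀} from rfl) (by rw [h2]; exact Set.notMem_empty _)
      · have : x ∈ e ⁻¹' {e x₀} := by rw [h2]; trivial
        rw [show e x = e x₀ from this]
  · refine Eventually.of_forall fun x => ?_
    have h1 : MeasurableSet[⊥] (e ⁻¹' {e x}) := he (measurableSet_singleton _)
    rcases MeasurableSpace.measurableSet_bot_iff.1 h1 with h2 | h2
    · exact absurd (show x ∈ e ⁻¹' {e x} from rfl) (by rw [h2]; exact Set.notMem_empty _)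
    · have : T i x ∈ e ⁻¹' {e x} := by rw [h2]; trivial
      rw [one_mul]
      exact this

theorem toAdd_pw {d k : ℕ} (b : Fin k → Multiplicative (Fin d → ℤ)) (m : Fin k → ℕ) :
    (pw b m).toAdd = ∑ l, m l • (b l).toAdd := by
  unfold pw
  rw [List.prod_ofFn, toAdd_prod]
  rfl

/-- The constant term. -/
def cc {d k n : ℕ} (P : Fin d → Fin n → MvPolynomial (Fin k) ℤ) (j : Fin n) :
    Multiplicative (Fin d → ℤ) := Multiplicative.ofAdd fun i => MvPolynomial.coeff 0 (P i j)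

/-- The linear coefficients. -/
def bb {d k n : ℕ} (P : Fin d → Fin n → MvPolynomial (Fin k) ℤ) (j : Fin n) (l : Fin k) :
    Multiplicative (Fin d → ℤ) :=
  Multiplicative.ofAdd fun i => MvPolynomial.coeff (Finsupp.single l 1) (P i j)

/-- The exponents as elements of the group. -/
theorem act_eval {X : Type*} {d k n : ℕ} (T : Fin d → Equiv.Perm X)
    (hc : ∀ i j, Commute (T i) (T j))
    (P : Fin d → Fin n → MvPolynomial (Fin k) ℤ) (hP : ∀ i j, (P i j).totalDegree ≤ 1)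
    (j : Fin n) (m : Fin k → ℕ) :
    (List.ofFn fun i : Fin d => T i ^
      (MvPolynomial.eval (fun l => ((m l : ℕ) : ℤ)) (P i j))).prod =
    hom T hc (cc P j * pw (bb P j) m) := by
  show _ = act T (Multiplicative.toAdd _)
  rw [toAdd_mul, toAdd_pw]
  unfold act
  congr 1
  congr 1
  funext i
  congr 1
  rw [eval_affine _ (hP i j), Pi.add_apply, Finset.sum_apply]
  congr 1

theorem boxAvg_eq {X : Type*} {d k n : ℕ} (T : Fin d → Equiv.Perm X)
    (hc : ∀ i j, Commute (T i) (T j))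
    (P : Fin d → Fin n → MvPolynomial (Fin k) ℤ) (hP : ∀ i j, (P i j).totalDegree ≤ 1)
    (f : Fin n → X → ℂ) (x : X) (M : Fin k → ℕ) :
    boxAvg T P f x M = bxc k M fun m => ∏ j, f j (hom T hc (cc P j * pw (bb P j) m) x) := by
  unfold boxAvg Pool.Agent.W761.Box.bxc
  congr 1
  refine Finset.sum_congr rfl fun m _ => Finset.prod_congr rfl fun j _ => ?_
  rw [act_eval T hc P hP j m]

theorem Kol.b1 {X : Type*} {𝒜 𝒴 : MeasurableSpace X} {mX : MeasurableSpace X} {μ : Measure X}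
    {d k n : ℕ} {T : Fin d → Equiv.Perm X} {lam : Fin d → ℝ} (hK : Kol 𝒜 𝒴 μ T lam)
    (P : Fin d → Fin n → MvPolynomial (Fin k) ℤ) (v : Fin n) (l : Fin k)
    (h : ell lam (bb P v l) = 0) : bb P v l = 1 :=
  Multiplicative.toAdd.injective (hK.indep _ h)

theorem Kol.b2 {X : Type*} {𝒜 𝒴 : MeasurableSpace X} {mX : MeasurableSpace X} {μ : Measure X}
    {d k n : ℕ} {T : Fin d → Equiv.Perm X} {lam : Fin d → ℝ} (hK : Kol 𝒜 𝒴 μ T lam)
    (P : Fin d → Fin n → MvPolynomial (Fin k) ℤ) (v w : Fin n)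
    (hvw : ∀ l, ell lam (bb P v l) = ell lam (bb P w l)) : bb P v = bb P w := by
  funext l
  apply Multiplicative.toAdd.injective
  have h1 := hK.indep (fun i => MvPolynomial.coeff (Finsupp.single l 1) (P i v) -
    MvPolynomial.coeff (Finsupp.single l 1) (P i w)) (by
      have h3 : ∑ i, ((MvPolynomial.coeff (Finsupp.single l 1) (P i v) : ℤ) : ℝ) * lam i =
        ∑ i, ((MvPolynomial.coeff (Finsupp.single l 1) (P i w) : ℤ) : ℝ) * lam i := hvw l
      push_cast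
      simp only [sub_mul, Finset.sum_sub_distrib]
      rw [h3, sub_self])
  funext i
  exact sub_eq_zero.1 (congrFun h1 i)

/-- From bounded measurable functions to `L^∞`. -/
theorem memLp_conv {X : Type} {mX : MeasurableSpace X} {μ : Measure X} [IsProbabilityMeasure μ]
    {G : Type*} [Group G] {Φ : G →* Equiv.Perm X} (hΦ : ∀ g, MeasurePreserving (Φ g) μ μ)
    {k n : ℕ} (q : (Fin k → ℕ) → Fin n → G)
    (hq : ∀ f : Fin n → X → ℂ, (∀ j, BM (f j)) →
      ∀ᵐ x ∂μ, ∃ L : ℂ, Tendsto (fun N => bxc k N fun m => ∏ j, f j (Φ (q m j) x)) atTop (𝓝 L))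
    {f : Fin n → X → ℂ} (hf : ∀ j, MemLp (f j) ∞ μ) :
    ∀ᵐ x ∂μ, ∃ L : ℂ, Tendsto (fun N => bxc k N fun m => ∏ j, f j (Φ (q m j) x)) atTop (𝓝 L) := by
  choose g hg hfg using fun j => BM_of_memLp (hf j)
  have h1 : ∀ᵐ x ∂μ, ∀ (m : Fin k → ℕ) (j : Fin n), f j (Φ (q m j) x) = g j (Φ (q m j) x) := by
    rw [ae_all_iff]
    intro m
    rw [ae_all_iff]
    intro j
    exact (hΦ _).quasiMeasurePreserving.ae (hfg j)
  filter_upwards [hq g hg, h1] with x hx hx1
  obtain ⟨L, hL⟩ := hx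
  refine ⟨L, hL.congr fun N => ?_⟩
  congr 1
  funext m
  exact Finset.prod_congr rfl fun j _ => (hx1 m j).symm

/-- **Kolmogorov extensions of factors with discrete spectrum.** -/
theorem main_disc {X : Type} {𝒴 : MeasurableSpace X} {mX : MeasurableSpace X} {μ : Measure X}
    [IsProbabilityMeasure μ] {d k n : ℕ} {T : Fin d → Equiv.Perm X} (hT : IsKExtension 𝒴 μ T)
    (hD : HasDiscreteSpectrum 𝒴 μ T)
    (P : Fin d → Fin n → MvPolynomial (Fin k) ℤ) (hP : ∀ i j, (P i j).totalDegree ≤ 1)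
    {f : Fin n → X → ℂ} (hf : ∀ j, MemLp (f j) ∞ μ) :
    ∀ᵐ x ∂μ, ∃ L : ℂ, Tendsto (boxAvg T P f x) atTop (𝓝 L) := by
  obtain ⟨lam, 𝒜, hK⟩ := hT.kol
  have hE := hK.ext hT.comm hT.mp hT.meas_symm
  have h := memLp_conv (Φ := hom T hT.comm) hE.fl (fun m j => cc P j * pw (bb P j) m)
    (fun g hg => conv_disc hE (disc_of hT.comm hT.mp hT.meas_symm hD) (cc P) (bb P)
      (fun v l => hK.b1 P v l) (fun v w => hK.b2 P v w) hg) hf
  filter_upwards [h] with x hx
  obtain ⟨L, hL⟩ := hx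
  exact ⟨L, hL.congr fun N => (boxAvg_eq T hT.comm P hP f x N).symm⟩

/-- **Kolmogorov extensions of arbitrary factors.** -/
theorem main_base {X : Type} {𝒴 : MeasurableSpace X} {mX : MeasurableSpace X} {μ : Measure X}
    [IsProbabilityMeasure μ] {d k n : ℕ} {T : Fin d → Equiv.Perm X} (hT : IsKExtension 𝒴 μ T)
    (P : Fin d → Fin n → MvPolynomial (Fin k) ℤ) (hP : ∀ i j, (P i j).totalDegree ≤ 1)
    (hfull : ∀ j, (∀ l, ∃ i, MvPolynomial.coeff (Finsupp.single l 1) (P i j) ≠ 0) ∨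
      (∀ l i, MvPolynomial.coeff (Finsupp.single l 1) (P i j) = 0))
    (hbase : ∀ g : Fin n → X → ℂ, (∀ j, Measurable[𝒴] (g j)) →
      (∀ j, ∃ C : ℝ, ∀ x, ‖g j x‖ ≤ C) →
      ∀ᵐ x ∂μ, ∃ L : ℂ, Tendsto (boxAvg T P g x) atTop (𝓝 L))
    {f : Fin n → X → ℂ} (hf : ∀ j, MemLp (f j) ∞ μ) :
    ∀ᵐ x ∂μ, ∃ L : ℂ, Tendsto (boxAvg T P f x) atTop (𝓝 L) := by
  obtain ⟨lam, 𝒜, hK⟩ := hT.kol
  have hE := hK.ext hT.comm hT.mp hT.meas_symm
  have h := memLp_conv (Φ := hom T hT.comm) hE.fl (fun m j => cc P j * pw (bb P j) m)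
    (fun g hg => conv_base hE (cc P) (bb P)
      (fun v l => hK.b1 P v l) (fun v w => hK.b2 P v w) (fun v => by
        rcases hfull v with h | h
        · left
          intro l h0
          obtain ⟨i, hi⟩ := h l
          exact hi (congrFun (congrArg Multiplicative.toAdd h0) i)
        · right
          intro l
          apply Multiplicative.toAdd.injective
          funext i
          exact h l i) (fun g' hg' hb' => by
        filter_upwards [hbase g' hg' hb'] with x hx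
        obtain ⟨L, hL⟩ := hx
        exact ⟨L, hL.congr fun N => boxAvg_eq T hT.comm P hP g' x N⟩) hg) hf
  filter_upwards [h] with x hx
  obtain ⟨L, hL⟩ := hx
  exact ⟨L, hL.congr fun N => (boxAvg_eq T hT.comm P hP f x N).symm⟩

end Pool.Agent.V11191.KB
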