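import Pool.Agent.V11191.KB.Ecc
import Pool.Agent.V11191.KB.Fin

/-!
# Kolmogorov extensions of arbitrary factors: reduction to the factor, not too eccentric boxes
-/

set_option autoImplicit false
set_option linter.unusedSectionVars false

open MeasureTheory Filter Topology
open scoped ENNReal

noncomputable section

namespace Pool.Agent.V11191.KB

open Pool.Agent.W761.Box (bx bxc BM Good1 bxc_add bxc_sub bxc_mul dz orb)
open Pool.Agent.W761.Gauss (BM_of_memLp)
open Pool.Agent.TH784.KE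

section abs

variable {X : Type*} {mA mY mX : MeasurableSpace X} {μ : Measure X} [IsProbabilityMeasure μ]
variable {G : Type*} [Group G]
variable {Φ : G →* Equiv.Perm X} {ℓ : G → ℝ}
variable {J : Type*} [DecidableEq J] [Fintype J]

/-- **The base is characteristic for averages over boxes that are not too eccentric.** -/
theorem char_ecc (hK : KExt μ mA mY Φ ℓ) {k : ℕ} {𝓕 : Filter (Fin k → ℕ)} (hT : Tame 𝓕) (c : J → G) (b : J → Fin k → G)
    (hb1 : ∀ v l, ℓ (b v l) = 0 → b v l = 1)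
    (hb2 : ∀ v w, v ≠ w → ∃ l, ℓ (b v l) ≠ ℓ (b w l))
    (hb3 : ∀ v, ∃ l, b v l ≠ 1) {f e : J → X → ℂ}
    (hf : ∀ j, @BM X mX (f j)) (he : ∀ j, @BM X mX (e j)) (heY : ∀ j, Measurable[mY] (e j))
    (hfe : ∀ j, ∀ B : Set X, MeasurableSet[mY] B → ∫ x in B, (f j x - e j x) ∂μ = 0) :
    ∀ᵐ x ∂μ, Tendsto (fun N => bxc k N fun n => (∏ j, f j (Φ (c j * pw (b j) n) x) -
      ∏ j, e j (Φ (c j * pw (b j) n) x))) 𝓕 (𝓝 0) := by
  classical
  have key : ∀ t : Finset J, t ≠ ∅ → ∀ᵐ x ∂μ, Tendsto (fun N => bxc k N fun n =>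
      (∏ j ∈ t, (f j (Φ (c j * pw (b j) n) x) - e j (Φ (c j * pw (b j) n) x))) *
        ∏ j ∈ Finset.univ \ t, e j (Φ (c j * pw (b j) n) x)) 𝓕 (𝓝 0) := by
    intro t ht
    have htn := Finset.nonempty_of_ne_empty ht
    obtain ⟨j₀, hj₀⟩ := htn
    obtain ⟨l₀, hl₀⟩ := hb3 j₀
    have hne : ℓ (b j₀ l₀) ≠ 0 := fun h => hl₀ (hb1 _ _ h)
    obtain ⟨s₀, hs₀⟩ : ∃ s₀ : G, 0 < ℓ s₀ := by
      rcases lt_or_gt_of_ne hne with h | h
      · exact ⟨(b j₀ l₀)⁻¹, by rw [hK.filt.inv]; linarith⟩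
      · exact ⟨b j₀ l₀, h⟩
    have hAdm : ∀ v, AdmC μ mY t v
        ((fun j => if j ∈ t then (fun x => f j x - e j x) else e j) v) := fun v => by
      by_cases hv : v ∈ t
      · simp only [hv, if_true]
        obtain ⟨m₁, C₁, b₁⟩ := hf v
        obtain ⟨m₂, C₂, b₂⟩ := he v
        exact ⟨⟨m₁.sub m₂, C₁ + C₂, fun x => (norm_sub_le _ _).trans
          (add_le_add (b₁ x) (b₂ x))⟩, fun _ => hfe v, fun h => absurd hv h⟩
      · simp only [hv, if_false]
        exact ⟨he v, fun h => absurd h hv, fun _ => heY v⟩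
    have hz : CzF 𝓕 μ (fun v (n : Fin k → ℕ) => (Φ (c v * pw (b v) n) : X → X))
        (fun j => if j ∈ t then (fun x => f j x - e j x) else e j) := by
      refine complex_ecc hT (l := l₀) (S := t) (lam := fun v => ℓ (c v))
        (θ := fun v l => ℓ (b v l)) hK hs₀ ?_ ?_ ⟨j₀, hj₀, hne⟩
        (fun v _ w _ hvw => hb2 v w hvw) ?_ hAdm
      · intro n v
        rw [hK.filt.hom, ell_pw hK.filt]
        rfl
      · intro v _ l hl n t
        show c v * pw (b v) (Function.update n l t) = c v * pw (b v) n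
        rw [pw_update _ _ _ (hb1 v l hl)]
      · intro v
        exact good_pw hK.fl (c v) (b v)
    filter_upwards [hz] with x hx
    refine hx.congr fun N => ?_
    congr 1
    funext n
    rw [← Finset.prod_mul_prod_compl t, ← Finset.compl_eq_univ_sdiff]
    congr 1
    · refine Finset.prod_congr rfl fun j hj => ?_
      rw [if_pos hj]
    · refine Finset.prod_congr rfl fun j hj => ?_
      rw [if_neg (Finset.mem_compl.1 hj)]
  have hall : ∀ᵐ x ∂μ, ∀ t : Finset J, t ≠ ∅ → Tendsto (fun N => bxc k N fun n =>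
      (∏ j ∈ t, (f j (Φ (c j * pw (b j) n) x) - e j (Φ (c j * pw (b j) n) x))) *
        ∏ j ∈ Finset.univ \ t, e j (Φ (c j * pw (b j) n) x)) 𝓕 (𝓝 0) := by
    rw [ae_all_iff]
    intro t
    by_cases ht : t = ∅
    · exact Eventually.of_forall fun x h => absurd ht h
    · filter_upwards [key t ht] with x hx _
      exact hx
  filter_upwards [hall] with x hx
  have hsum := tendsto_finsetSum ((Finset.univ : Finset J).powerset.erase ∅) fun t ht =>
    hx t (Finset.ne_of_mem_erase ht)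
  rw [Finset.sum_const_zero] at hsum
  refine hsum.congr fun N => ?_
  rw [← bxc_sum]
  congr 1
  funext n
  have h1 := Finset.prod_add
    (fun j => f j (Φ (c j * pw (b j) n) x) - e j (Φ (c j * pw (b j) n) x))
    (fun j => e j (Φ (c j * pw (b j) n) x)) (Finset.univ : Finset J)
  have h2 : ∏ j, (f j (Φ (c j * pw (b j) n) x) - e j (Φ (c j * pw (b j) n) x) +
      e j (Φ (c j * pw (b j) n) x)) =
      ∏ j, f j (Φ (c j * pw (b j) n) x) := Finset.prod_congr rfl fun j _ => by ring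
  rw [h2, ← Finset.add_sum_erase _ _ (Finset.empty_mem_powerset _)] at h1
  rw [h1]
  simp

/-- **Reduction to the factor.** -/
theorem base_ecc (hK : KExt μ mA mY Φ ℓ) {k : ℕ} {𝓕 : Filter (Fin k → ℕ)} (hT : Tame 𝓕) (c : J → G)
    (b : J → Fin k → G)
    (hb1 : ∀ v l, ℓ (b v l) = 0 → b v l = 1)
    (hb2 : ∀ v w, (∀ l, ℓ (b v l) = ℓ (b w l)) → b v = b w)
    (hbase : ∀ g : J → X → ℂ, (∀ j, Measurable[mY] (g j)) → (∀ j, ∃ C : ℝ, ∀ x, ‖g j x‖ ≤ C) →
      ∀ᵐ x ∂μ, ∃ L : ℂ, Tendsto (fun N => bxc k N fun n => ∏ j, g j (Φ (c j * pw (b j) n) x))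
        𝓕 (𝓝 L))
    {f : J → X → ℂ} (hf : ∀ j, @BM X mX (f j)) :
    ∀ᵐ x ∂μ, ∃ L : ℂ, Tendsto (fun N => bxc k N fun n => ∏ j, f j (Φ (c j * pw (b j) n) x))
      𝓕 (𝓝 L) := by
  classical
  have hYX : mY ≤ mX := hK.base.le.trans hK.filt.le
  set R : Finset (Fin k → G) := (Finset.univ.image b).erase (fun _ => 1) with hR
  set F : (Fin k → G) → X → ℂ := fun r x => ∏ j ∈ Finset.univ.filter (fun j => b j = r),
    f j (Φ (c j) x) with hF
  have hFB : ∀ r, @BM X mX (F r) := by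
    intro r
    choose hm C hC using hf
    refine ⟨?_, ∏ j ∈ Finset.univ.filter (fun j => b j = r), C j, fun x => ?_⟩
    · exact Finset.measurable_prod _ fun j _ => (hm j).comp (hK.fl (c j)).measurable
    · rw [hF, norm_prod]
      exact Finset.prod_le_prod (fun j _ => norm_nonneg _) fun j _ => hC j _
  have hmem : ∀ r : {r // r ∈ R}, ∃ v, b v = r.1 ∧ r.1 ≠ fun _ => 1 := by
    rintro ⟨r, hr⟩
    rw [hR, Finset.mem_erase, Finset.mem_image] at hr
    obtain ⟨h1, v, _, hv⟩ := hr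
    exact ⟨v, hv, h1⟩
  choose rep hrep hne1 using hmem
  choose e heB heY hee hev using fun r : {r // r ∈ R} => exists_cond (μ := μ) hYX (hFB r.1)
  have hmain := char_ecc (J := {r // r ∈ R}) hK hT (fun _ => 1) (fun r => r.1)
    (fun r l h => by
      rw [← hrep r] at h ⊢
      exact hb1 (rep r) l h)
    (fun r r' hrr' => by
      by_contra hcon
      push Not at hcon
      apply hrr'
      apply Subtype.ext
      rw [← hrep r, ← hrep r'] at hcon ⊢
      exact hb2 _ _ hcon)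
    (fun r => by
      by_contra hcon
      push Not at hcon
      exact hne1 r (funext hcon))
    (f := fun r => F r.1) (e := e) (fun r => hFB r.1) heB heY hev
  have hbs := hbase (fun j x => ∏ r ∈ Finset.univ.filter (fun r => rep r = j),
      e r (Φ (c j)⁻¹ x))
    (fun j => Finset.measurable_prod _ fun r _ => (heY r).comp (hK.base.inv (c j)⁻¹))
    (fun j => by
      choose m C hC using heB
      refine ⟨∏ r ∈ Finset.univ.filter (fun r => rep r = j), C r, fun x => ?_⟩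
      rw [norm_prod]
      exact Finset.prod_le_prod (fun j _ => norm_nonneg _) fun j _ => hC j _)
  filter_upwards [hmain, hbs] with x hx hbx
  obtain ⟨L, hL⟩ := hbx
  have hsum := hx.add hL
  refine ⟨_, (hsum.const_mul (F (fun _ => 1) x)).congr fun N => ?_⟩
  rw [← bxc_add, ← bxc_mul]
  congr 1
  funext n
  have hpw1 : pw (fun _ : Fin k => (1 : G)) n = 1 := by
    unfold pw
    simp
  have e1 : ∏ r : {r // r ∈ R}, F r.1 (Φ (1 * pw r.1 n) x) = ∏ r ∈ R, F r (Φ (pw r n) x) := by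
    rw [← Finset.prod_coe_sort R (fun r => F r (Φ (pw r n) x))]
    refine Finset.prod_congr rfl fun r _ => ?_
    rw [one_mul]
  have e2 : ∏ j, f j (Φ (c j * pw (b j) n) x) =
      ∏ r ∈ insert (fun _ => 1) (Finset.univ.image b), F r (Φ (pw r n) x) := by
    rw [← Finset.prod_fiberwise_of_maps_to (s := Finset.univ)
      (t := insert (fun _ => 1) (Finset.univ.image b)) (g := b)
      (fun j _ => Finset.mem_insert_of_mem (Finset.mem_image_of_mem b (Finset.mem_univ j)))]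
    refine Finset.prod_congr rfl fun r _ => ?_
    rw [hF]
    refine Finset.prod_congr rfl fun j hj => ?_
    rw [(Finset.mem_filter.1 hj).2, map_mul, Equiv.Perm.mul_apply]
  have e3 : insert (fun _ => 1) (Finset.univ.image b) = insert (fun _ => 1) R := by
    rw [hR]
    ext r
    simp only [Finset.mem_insert, Finset.mem_erase]
    tauto
  have e4 : ∏ j, ∏ r ∈ Finset.univ.filter (fun r => rep r = j),
      e r (Φ (c j)⁻¹ (Φ (c j * pw (b j) n) x)) =
      ∏ r : {r // r ∈ R}, e r (Φ (1 * pw r.1 n) x) := by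
    rw [← Finset.prod_fiberwise (s := Finset.univ) (g := rep)]
    refine Finset.prod_congr rfl fun j _ => Finset.prod_congr rfl fun r hr => ?_
    have hr' := (Finset.mem_filter.1 hr).2
    congr 1
    rw [← hr', hrep r, ← Equiv.Perm.mul_apply, ← map_mul, one_mul, inv_mul_cancel_left]
  show F (fun _ => 1) x * ((∏ r : {r // r ∈ R}, F r.1 (Φ (1 * pw r.1 n) x) -
    ∏ r : {r // r ∈ R}, e r (Φ (1 * pw r.1 n) x)) + ∏ j, ∏ r ∈ Finset.univ.filter
      (fun r => rep r = j), e r (Φ (c j)⁻¹ (Φ (c j * pw (b j) n) x))) = _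
  rw [e4, sub_add_cancel, e1, e2, e3, Finset.prod_insert (by rw [hR]; exact Finset.notMem_erase _ _),
    hpw1, map_one, Equiv.Perm.one_apply]

end abs

/-- From bounded measurable functions to `L^∞`. -/
theorem memLp_convF {X : Type} {mX : MeasurableSpace X} {μ : Measure X} [IsProbabilityMeasure μ]
    {G : Type*} [Group G] {Φ : G →* Equiv.Perm X} (hΦ : ∀ g, MeasurePreserving (Φ g) μ μ)
    {k n : ℕ} (q : (Fin k → ℕ) → Fin n → G) {𝓕 : Filter (Fin k → ℕ)}
    (hq : ∀ f : Fin n → X → ℂ, (∀ j, BM (f j)) →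
      ∀ᵐ x ∂μ, ∃ L : ℂ, Tendsto (fun N => bxc k N fun m => ∏ j, f j (Φ (q m j) x)) 𝓕 (𝓝 L))
    {f : Fin n → X → ℂ} (hf : ∀ j, MemLp (f j) ∞ μ) :
    ∀ᵐ x ∂μ, ∃ L : ℂ, Tendsto (fun N => bxc k N fun m => ∏ j, f j (Φ (q m j) x)) 𝓕 (𝓝 L) := by
  choose g hg hfg using fun j => BM_of_memLp (hf j)
  have h1 : ∀ᵐ x ∂μ, ∀ (m : Fin k → ℕ) (j : Fin n), f j (Φ (q m j) x) = g j (Φ (q m j) x) := by
    rw [ae_all_iff]
    intro m
    rw [ae_all_iff]
    intro j
    exact (hΦ _).quasiMeasurePreserving.ae (hfg j)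
  filter_upwards [hq g hg, h1] with x hx hx1
  obtain ⟨L, hL⟩ := hx
  refine ⟨L, hL.congr fun N => ?_⟩
  congr 1
  funext m
  exact Finset.prod_congr rfl fun j _ => (hx1 m j).symm

/-- **Kolmogorov extensions of arbitrary factors.** -/
theorem main_ecc {X : Type} {𝒴 : MeasurableSpace X} {mX : MeasurableSpace X} {μ : Measure X}
    [IsProbabilityMeasure μ] {d k n : ℕ} {T : Fin d → Equiv.Perm X} (hT : IsKExtension 𝒴 μ T)
    (P : Fin d → Fin n → MvPolynomial (Fin k) ℤ) (hP : ∀ i j, (P i j).totalDegree ≤ 1)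
    {𝓕 : Filter (Fin k → ℕ)} (h𝓕 : Tame 𝓕)
    (hbase : ∀ g : Fin n → X → ℂ, (∀ j, Measurable[𝒴] (g j)) →
      (∀ j, ∃ C : ℝ, ∀ x, ‖g j x‖ ≤ C) →
      ∀ᵐ x ∂μ, ∃ L : ℂ, Tendsto (boxAvg T P g x) 𝓕 (𝓝 L))
    {f : Fin n → X → ℂ} (hf : ∀ j, MemLp (f j) ∞ μ) :
    ∀ᵐ x ∂μ, ∃ L : ℂ, Tendsto (boxAvg T P f x) 𝓕 (𝓝 L) := by
  obtain ⟨lam, 𝒜, hK⟩ := hT.kol
  have hE := hK.ext hT.comm hT.mp hT.meas_symm
  have h := memLp_convF (Φ := hom T hT.comm) hE.fl (fun m j => cc P j * pw (bb P j) m) (𝓕 := 𝓕)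
    (fun g hg => base_ecc hE h𝓕 (cc P) (bb P)
      (fun v l => hK.b1 P v l) (fun v w => hK.b2 P v w) (fun g' hg' hb' => by
        filter_upwards [hbase g' hg' hb'] with x hx
        obtain ⟨L, hL⟩ := hx
        exact ⟨L, hL.congr fun N => boxAvg_eq T hT.comm P hP g' x N⟩) hg) hf
  filter_upwards [h] with x hx
  obtain ⟨L, hL⟩ := hx
  exact ⟨L, hL.congr fun N => (boxAvg_eq T hT.comm P hP f x N).symm⟩

end Pool.Agent.V11191.KB
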