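import Pool.Agent.V11191.KB.Char

/-!
# Kolmogorov extensions of factors with discrete spectrum
-/

set_option autoImplicit false
set_option linter.unusedSectionVars false

open MeasureTheory Filter Topology
open scoped ENNReal

noncomputable section

namespace Pool.Agent.V11191.KB

open Pool.Agent.W761.Box (bx bxc BM Good1 bxc_add bxc_sub bxc_mul dz orb Cv Cv_add Cv_smul
  Cv_zero Cv_closed bxc_bound)
open Pool.Agent.TH784.KE

/-- Separating a variable. -/
theorem bxc_split {k : ℕ} (N : Fin (k + 1) → ℕ) (l : Fin (k + 1)) (w : ℕ → ℂ)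
    (a : (Fin k → ℕ) → ℂ) :
    bxc (k + 1) N (fun m => w (m l) * a (fun i => m (l.succAbove i))) =
      ((N l : ℂ)⁻¹ * ∑ t ∈ Finset.range (N l), w t) * bxc k (fun i => N (l.succAbove i)) a := by
  unfold Pool.Agent.W761.Box.bxc
  have h1 : ∑ m ∈ Fintype.piFinset (fun j => Finset.range (N j)),
      w (m l) * a (fun i => m (l.succAbove i)) =
      ∑ p ∈ Finset.range (N l) ×ˢ Fintype.piFinset (fun i => Finset.range (N (l.succAbove i))),
        w p.1 * a p.2 := by
    refine Finset.sum_bij' (fun m _ => (m l, fun i => m (l.succAbove i)))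
      (fun p _ => (l.insertNth p.1 p.2 : Fin (k + 1) → ℕ)) ?_ ?_ ?_ ?_ ?_
    · intro m hm
      rw [Fintype.mem_piFinset] at hm
      rw [Finset.mem_product, Fintype.mem_piFinset]
      exact ⟨hm l, fun i => hm _⟩
    · intro p hp
      rw [Finset.mem_product, Fintype.mem_piFinset] at hp
      rw [Fintype.mem_piFinset]
      intro j
      rcases eq_or_ne j l with rfl | h
      · rw [Fin.insertNth_apply_same]
        exact hp.1
      · obtain ⟨i, rfl⟩ := Fin.exists_succAbove_eq h
        rw [Fin.insertNth_apply_succAbove]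
        exact hp.2 i
    · intro m _
      funext j
      rcases eq_or_ne j l with rfl | h
      · rw [Fin.insertNth_apply_same]
      · obtain ⟨i, rfl⟩ := Fin.exists_succAbove_eq h
        rw [Fin.insertNth_apply_succAbove]
    · intro p _
      refine Prod.ext ?_ ?_
      · show (l.insertNth p.1 p.2 : Fin (k + 1) → ℕ) l = p.1
        rw [Fin.insertNth_apply_same]
      · funext i
        show (l.insertNth p.1 p.2 : Fin (k + 1) → ℕ) (l.succAbove i) = p.2 i
        rw [Fin.insertNth_apply_succAbove]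
    · intro m _
      rfl
  have h2 : ∑ p ∈ Finset.range (N l) ×ˢ
      Fintype.piFinset (fun i => Finset.range (N (l.succAbove i))), w p.1 * a p.2 =
      (∑ t ∈ Finset.range (N l), w t) *
        ∑ m ∈ Fintype.piFinset (fun i => Finset.range (N (l.succAbove i))), a m := by
    rw [Finset.sum_product, Finset.sum_mul_sum]
  rw [h1, h2, Fin.prod_univ_succAbove _ l, mul_inv]
  ring

theorem geom_bound {β : ℂ} (hβ : ‖β‖ = 1) (N : ℕ) :
    ‖(N : ℂ)⁻¹ * ∑ t ∈ Finset.range N, β ^ t‖ ≤ 1 := by
  rw [norm_mul, norm_inv, Complex.norm_natCast]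
  have h1 : ‖∑ t ∈ Finset.range N, β ^ t‖ ≤ N := by
    refine (norm_sum_le _ _).trans ?_
    simp [hβ]
  rcases Nat.eq_zero_or_pos N with h | h
  · subst h
    simp
  · have h' : (0 : ℝ) < N := by exact_mod_cast h
    rw [inv_mul_le_iff₀ h', mul_one]
    exact h1

theorem geom_conv {β : ℂ} (hβ : ‖β‖ = 1) :
    ∃ L : ℂ, Tendsto (fun N : ℕ => (N : ℂ)⁻¹ * ∑ t ∈ Finset.range N, β ^ t) atTop (𝓝 L) := by
  by_cases h : β = 1
  · refine ⟨1, ?_⟩
    subst h
    refine Tendsto.congr' ?_ (tendsto_const_nhds (x := (1 : ℂ)))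
    filter_upwards [eventually_ge_atTop 1] with N hN
    have : (N : ℂ) ≠ 0 := by
      have h0 : N ≠ 0 := by omega
      exact_mod_cast h0
    simp [this]
  · refine ⟨0, ?_⟩
    rw [tendsto_zero_iff_norm_tendsto_zero]
    have hne : (0 : ℝ) < ‖β - 1‖ := norm_pos_iff.2 (sub_ne_zero.2 h)
    have h1 : Tendsto (fun N : ℕ => (2 / ‖β - 1‖) / (N : ℝ)) atTop (𝓝 0) :=
      Tendsto.div_atTop tendsto_const_nhds tendsto_natCast_atTop_atTop
    refine squeeze_zero (fun _ => norm_nonneg _) (fun N => ?_) h1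
    rw [norm_mul, norm_inv, Complex.norm_natCast, geom_sum_eq h, norm_div, div_eq_inv_mul,
      div_eq_inv_mul, div_eq_inv_mul]
    have h2 : ‖β ^ N - 1‖ ≤ 2 := by
      refine (norm_sub_le _ _).trans ?_
      rw [norm_pow, hβ, one_pow, norm_one]
      norm_num
    gcongr

theorem bxc_geom {k : ℕ} (N : Fin k → ℕ) (β : Fin k → ℂ) :
    bxc k N (fun m => ∏ l, β l ^ m l) =
      ∏ l, ((N l : ℂ)⁻¹ * ∑ t ∈ Finset.range (N l), β l ^ t) := by
  unfold Pool.Agent.W761.Box.bxc
  rw [Finset.prod_mul_distrib, Finset.prod_univ_sum, Finset.prod_inv_distrib]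

variable {X : Type*} {mA mY mX : MeasurableSpace X} {μ : Measure X} [IsProbabilityMeasure μ]
variable {G : Type*} [Group G]
variable {Φ : G →* Equiv.Perm X} {ℓ : G → ℝ}
variable {J : Type*} [DecidableEq J] [Fintype J]

/-- Bounded eigenfunctions of the factor. -/
def Eig (μ : Measure X) (mY : MeasurableSpace X) (Φ : G →* Equiv.Perm X) (χ : X → ℂ) : Prop :=
  Measurable[mY] χ ∧ (∃ C : ℝ, ∀ x, ‖χ x‖ ≤ C) ∧
    ∃ α : G →* ℂ, (∀ g, ‖α g‖ = 1) ∧ ∀ g, ∀ᵐ x ∂μ, χ (Φ g x) = α g * χ x

theorem alpha_pw (α : G →* ℂ) {k : ℕ} (b : Fin k → G) (n : Fin k → ℕ) :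
    α (pw b n) = ∏ l, α (b l) ^ n l := by
  unfold pw
  rw [map_list_prod, List.map_ofFn, List.prod_ofFn]
  refine Finset.prod_congr rfl fun l _ => ?_
  rw [Function.comp_apply, map_pow]

theorem Eig.bm (hYX : mY ≤ mX) {χ : X → ℂ} (h : Eig μ mY Φ χ) : @BM X mX χ :=
  ⟨h.1.mono hYX le_rfl, h.2.1⟩

/-- Convergence to zero when the factors outside of `S` are eigenfunctions. -/
theorem zero_eig (hK : KExt μ mA mY Φ ℓ) {s₀ : G} (hs₀ : 0 < ℓ s₀) {S : Finset J}
    (hS : S.Nonempty) (c : J → G) {F : J → X → ℂ} (hF : ∀ v, AdmC μ mY S v (F v))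
    (hFe : ∀ v ∉ S, Eig μ mY Φ (F v)) :
    ∀ (k : ℕ) (b : J → Fin k → G), (∀ v ∈ S, ∀ l, ℓ (b v l) = 0 → b v l = 1) →
    (∀ v ∈ S, ∀ w ∈ S, v ≠ w → ∃ l, ℓ (b v l) ≠ ℓ (b w l)) →
    (∀ v ∈ S, ∃ l, b v l ≠ 1) →
    Cz μ (fun v (n : Fin k → ℕ) => (Φ (c v * pw (b v) n) : X → X)) F := by
  have h1ℓ : ℓ 1 = 0 := hK.filt.one
  have hα : ∀ v, ∃ α : G →* ℂ, (∀ g, ‖α g‖ = 1) ∧
      (v ∉ S → ∀ g, ∀ᵐ x ∂μ, F v (Φ g x) = α g * F v x) := by
    intro v
    by_cases hv : v ∈ S
    · exact ⟨1, fun g => by simp, fun h => absurd hv h⟩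
    · obtain ⟨_, _, α, h1, h2⟩ := hFe v hv
      exact ⟨α, h1, fun _ => h2⟩
  choose α hα1 hα2 using hα
  intro k
  induction k with
  | zero =>
    intro b _ _ h
    obtain ⟨v, hv⟩ := hS
    obtain ⟨l, _⟩ := h v hv
    exact l.elim0
  | succ k ih =>
    intro b hb1 hb2 hb3
    by_cases hall : ∀ l, ∃ v ∈ S, ℓ (b v l) ≠ 0
    · refine zero_complex (k := k + 1) (S := S) (lam := fun v => ℓ (c v))
        (θ := fun v l => ℓ (b v l)) (Nat.succ_pos k) hK hs₀ ?_ ?_ hall hb2 ?_ hF
      · intro n v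
        rw [hK.filt.hom, ell_pw hK.filt]
        rfl
      · intro v hv l hl n t
        show c v * pw (b v) (Function.update n l t) = c v * pw (b v) n
        rw [pw_update _ _ _ (hb1 v hv l hl)]
      · intro v
        exact good_pw hK.fl (c v) (b v)
    · push Not at hall
      obtain ⟨l, hl⟩ := hall
      have hl1 : ∀ v ∈ S, b v l = 1 := fun v hv => hb1 v hv l (hl v hv)
      have hih := ih (fun v i => b v (l.succAbove i)) (fun v hv i h => hb1 v hv _ h)
        (fun v hv w hw hvw => by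
          obtain ⟨l', hl'⟩ := hb2 v hv w hw hvw
          have hne : l' ≠ l := by
            rintro rfl
            rw [hl1 v hv, hl1 w hw] at hl'
            exact hl' rfl
          obtain ⟨i, rfl⟩ := Fin.exists_succAbove_eq hne
          exact ⟨i, hl'⟩)
        (fun v hv => by
          obtain ⟨l', hl'⟩ := hb3 v hv
          have hne : l' ≠ l := by
            rintro rfl
            exact hl' (hl1 v hv)
          obtain ⟨i, rfl⟩ := Fin.exists_succAbove_eq hne
          exact ⟨i, hl'⟩)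
      have hcount : ∀ᵐ x ∂μ, ∀ (v : J), v ∉ S → ((∀ n : Fin (k + 1) → ℕ,
          F v (Φ (c v * pw (b v) n) x) = α v (c v * pw (b v) n) * F v x) ∧
          (∀ n : Fin k → ℕ, F v (Φ (c v * pw (fun i => b v (l.succAbove i)) n) x) =
            α v (c v * pw (fun i => b v (l.succAbove i)) n) * F v x)) := by
        rw [ae_all_iff]
        intro v
        by_cases hv : v ∈ S
        · exact Eventually.of_forall fun x h => absurd hv h
        · have e1 : ∀ᵐ x ∂μ, ∀ n : Fin (k + 1) → ℕ,
              F v (Φ (c v * pw (b v) n) x) = α v (c v * pw (b v) n) * F v x := by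
            rw [ae_all_iff]
            exact fun n => hα2 v hv _
          have e2 : ∀ᵐ x ∂μ, ∀ n : Fin k → ℕ,
              F v (Φ (c v * pw (fun i => b v (l.succAbove i)) n) x) =
              α v (c v * pw (fun i => b v (l.succAbove i)) n) * F v x := by
            rw [ae_all_iff]
            exact fun n => hα2 v hv _
          filter_upwards [e1, e2] with x h1 h2 _
          exact ⟨h1, h2⟩
      set β : J → ℂ := fun v => if v ∈ S then 1 else α v (b v l) with hβ
      have hβ1 : ‖∏ v, β v‖ = 1 := by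
        rw [norm_prod]
        refine Finset.prod_eq_one fun v _ => ?_
        rw [hβ]
        by_cases hv : v ∈ S
        · simp [hv]
        · simp only [hv, if_false]
          exact hα1 v _
      filter_upwards [hih, hcount] with x hx hcx
      have hx' := hx.comp (tendsto_succAbove l)
      rw [tendsto_zero_iff_norm_tendsto_zero] at hx' ⊢
      refine squeeze_zero (fun _ => norm_nonneg _) (fun N => ?_) hx'
      have e3 : bxc (k + 1) N (fun m => ∏ j, F j (Φ (c j * pw (b j) m) x)) =
          bxc (k + 1) N (fun m => (∏ v, β v) ^ (m l) *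
            (fun m' : Fin k → ℕ => ∏ j, F j (Φ (c j * pw (fun i => b j (l.succAbove i)) m') x))
              (fun i => m (l.succAbove i))) := by
        congr 1
        funext m
        show _ = (∏ v, β v) ^ (m l) * ∏ j, F j (Φ (c j * pw (fun i => b j (l.succAbove i))
          (fun i => m (l.succAbove i))) x)
        rw [← Finset.prod_pow, ← Finset.prod_mul_distrib]
        refine Finset.prod_congr rfl fun v _ => ?_
        by_cases hv : v ∈ S
        · rw [pw_succAbove (b v) m l (hl1 v hv), hβ]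
          simp only [hv, if_true, one_pow, one_mul]
        · obtain ⟨h3, h4⟩ := hcx v hv
          rw [h3 m, h4 (fun i => m (l.succAbove i)), map_mul, map_mul, alpha_pw, alpha_pw,
            Fin.prod_univ_succAbove _ l, hβ]
          simp only [hv, if_false]
          ring
      have e4 := e3.trans (bxc_split N l (fun t => (∏ v, β v) ^ t)
        (fun m' : Fin k → ℕ => ∏ j, F j (Φ (c j * pw (fun i => b j (l.succAbove i)) m') x)))
      show ‖bxc (k + 1) N (fun m => ∏ j, F j (Φ (c j * pw (b j) m) x))‖ ≤ _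
      rw [e4, norm_mul, Function.comp_apply]
      exact mul_le_of_le_one_left (norm_nonneg _) (geom_bound hβ1 _)

end Pool.Agent.V11191.KB
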