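import Pool.Agent.V11191.KB.Fin

/-!
# Kolmogorov extensions: unrestricted boxes and arbitrary linear forms over a good base
-/

set_option autoImplicit false
set_option linter.unusedSectionVars false

open MeasureTheory Filter Topology
open scoped ENNReal ComplexConjugate

noncomputable section

namespace Pool.Agent.V11191.KB

open Pool.Agent.W761.Box (bx bxc BM Good1 bxc_add bxc_sub bxc_mul dz orb bxc_norm bx_mono
  bx_const_le bx_mul bx_add)
open Pool.Agent.TH784.KE

/-- Averaging over one variable first. -/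
theorem bxc_insert {k : ℕ} (N : Fin (k + 1) → ℕ) (l : Fin (k + 1))
    (a : (Fin (k + 1) → ℕ) → ℂ) :
    bxc (k + 1) N a = bxc k (fun i => N (l.succAbove i)) (fun m => (N l : ℂ)⁻¹ *
      ∑ t ∈ Finset.range (N l), a (l.insertNth t m)) := by
  unfold Pool.Agent.W761.Box.bxc
  have h1 : ∑ m ∈ Fintype.piFinset (fun j => Finset.range (N j)), a m =
      ∑ p ∈ Finset.range (N l) ×ˢ Fintype.piFinset (fun i => Finset.range (N (l.succAbove i))),
        a (l.insertNth p.1 p.2) := by
    refine Finset.sum_bij' (fun m _ => (m l, fun i => m (l.succAbove i)))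
      (fun p _ => (l.insertNth p.1 p.2 : Fin (k + 1) → ℕ)) ?_ ?_ ?_ ?_ ?_
    · intro m hm
      rw [Fintype.mem_piFinset] at hm
      rw [Finset.mem_product, Fintype.mem_piFinset]
      exact ⟨hm l, fun i => hm _⟩
    · intro p hp
      rw [Finset.mem_product, Fintype.mem_piFinset] at hp
      rw [Fintype.mem_piFinset]
      intro j
      rcases eq_or_ne j l with rfl | h
      · rw [Fin.insertNth_apply_same]
        exact hp.1
      · obtain ⟨i, rfl⟩ := Fin.exists_succAbove_eq h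
        rw [Fin.insertNth_apply_succAbove]
        exact hp.2 i
    · intro m _
      funext j
      rcases eq_or_ne j l with rfl | h
      · rw [Fin.insertNth_apply_same]
      · obtain ⟨i, rfl⟩ := Fin.exists_succAbove_eq h
        rw [Fin.insertNth_apply_succAbove]
    · intro p _
      refine Prod.ext ?_ ?_
      · show (l.insertNth p.1 p.2 : Fin (k + 1) → ℕ) l = p.1
        rw [Fin.insertNth_apply_same]
      · funext i
        show (l.insertNth p.1 p.2 : Fin (k + 1) → ℕ) (l.succAbove i) = p.2 i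
        rw [Fin.insertNth_apply_succAbove]
    · intro m _
      congr 1
      funext j
      rcases eq_or_ne j l with rfl | h
      · rw [Fin.insertNth_apply_same]
      · obtain ⟨i, rfl⟩ := Fin.exists_succAbove_eq h
        rw [Fin.insertNth_apply_succAbove]
  rw [h1, Finset.sum_product, Finset.sum_comm, Fin.prod_univ_succAbove _ l, mul_inv,
    ← Finset.mul_sum]
  ring

theorem pw_insert {G : Type*} [CommGroup G] {k : ℕ} (b : Fin (k + 1) → G) (l : Fin (k + 1))
    (t : ℕ) (m : Fin k → ℕ) :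
    pw b (l.insertNth t m) = b l ^ t * pw (fun i => b (l.succAbove i)) m := by
  unfold pw
  rw [List.prod_ofFn, List.prod_ofFn, Fin.prod_univ_succAbove _ l, Fin.insertNth_apply_same]
  congr 1
  refine Finset.prod_congr rfl fun i _ => ?_
  rw [Fin.insertNth_apply_succAbove]

theorem bxc_conj {k : ℕ} (N : Fin k → ℕ) (a : (Fin k → ℕ) → ℂ) :
    bxc k N (fun m => conj (a m)) = conj (bxc k N a) := by
  unfold Pool.Agent.W761.Box.bxc
  rw [map_mul, map_sum, map_inv₀, map_prod]
  simp only [Complex.conj_natCast]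

theorem bxc_ofReal {k : ℕ} (N : Fin k → ℕ) (a : (Fin k → ℕ) → ℝ) :
    bxc k N (fun m => (a m : ℂ)) = (bx k N a : ℂ) := by
  unfold Pool.Agent.W761.Box.bxc Pool.Agent.W761.Box.bx
  push_cast
  rfl

/-- The elementary estimate. -/
theorem avg_estimate {k : ℕ} (N : Fin k → ℕ) (D U V : (Fin k → ℕ) → ℂ) {C δ : ℝ} {Λ : ℂ}
    (hC : 0 ≤ C) (hδ : 0 < δ) (hD : ∀ m, ‖D m‖ ≤ C)
    (h1 : ‖bxc k N (fun m => U m * conj (U m)) - Λ‖ ≤ δ ^ 2)
    (h2 : ‖bxc k N (fun m => U m * conj (V m)) - Λ‖ ≤ δ ^ 2)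
    (h3 : ‖bxc k N (fun m => V m * conj (U m)) - Λ‖ ≤ δ ^ 2)
    (h4 : ‖bxc k N (fun m => V m * conj (V m)) - Λ‖ ≤ δ ^ 2) :
    ‖bxc k N (fun m => D m * U m)‖ ≤ ‖bxc k N (fun m => D m * V m)‖ + C * (5 * δ) := by
  have hsq : bx k N (fun m => ‖U m - V m‖ ^ 2) ≤ 4 * δ ^ 2 := by
    have e1 : ((bx k N (fun m => ‖U m - V m‖ ^ 2) : ℝ) : ℂ) =
        (bxc k N (fun m => U m * conj (U m)) - Λ) - (bxc k N (fun m => U m * conj (V m)) - Λ) -
        (bxc k N (fun m => V m * conj (U m)) - Λ) +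
        (bxc k N (fun m => V m * conj (V m)) - Λ) := by
      rw [← bxc_ofReal]
      have e2 : (fun m => ((‖U m - V m‖ ^ 2 : ℝ) : ℂ)) = fun m =>
          ((U m * conj (U m) - U m * conj (V m)) - V m * conj (U m)) + V m * conj (V m) := by
        funext m
        rw [← Complex.normSq_eq_norm_sq, ← Complex.mul_conj, map_sub]
        ring
      rw [e2, bxc_add, bxc_sub, bxc_sub]
      ring
    have e3 : |bx k N (fun m => ‖U m - V m‖ ^ 2)| ≤ 4 * δ ^ 2 := by
      rw [← Real.norm_eq_abs, ← Complex.norm_real, e1]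
      refine (norm_add_le _ _).trans ?_
      have b1 := norm_sub_le ((bxc k N (fun m => U m * conj (U m)) - Λ) -
        (bxc k N (fun m => U m * conj (V m)) - Λ)) (bxc k N (fun m => V m * conj (U m)) - Λ)
      have b2 := norm_sub_le (bxc k N (fun m => U m * conj (U m)) - Λ)
        (bxc k N (fun m => U m * conj (V m)) - Λ)
      linarith
    exact (le_abs_self _).trans e3
  have hab : bx k N (fun m => ‖U m - V m‖) ≤ 5 * δ := by
    have h5 : ∀ m, ‖U m - V m‖ ≤ δ⁻¹ * ‖U m - V m‖ ^ 2 + δ := by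
      intro m
      have h6 : 0 ≤ δ⁻¹ * (‖U m - V m‖ - δ) ^ 2 := by positivity
      have h7 : δ⁻¹ * (‖U m - V m‖ - δ) ^ 2 =
          δ⁻¹ * ‖U m - V m‖ ^ 2 - 2 * ‖U m - V m‖ + δ := by
        field_simp
        ring
      have h8 := norm_nonneg (U m - V m)
      linarith
    refine (bx_mono h5).trans ?_
    rw [bx_add, bx_mul]
    have h9 : bx k N (fun _ => δ) ≤ δ := bx_const_le hδ.le
    have h10 : δ⁻¹ * bx k N (fun m => ‖U m - V m‖ ^ 2) ≤ 4 * δ := by
      calc δ⁻¹ * bx k N (fun m => ‖U m - V m‖ ^ 2) ≤ δ⁻¹ * (4 * δ ^ 2) :=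
            mul_le_mul_of_nonneg_left hsq (by positivity)
        _ = 4 * δ := by field_simp
    linarith
  have e4 : bxc k N (fun m => D m * U m) = bxc k N (fun m => D m * V m) +
      bxc k N (fun m => D m * (U m - V m)) := by
    rw [← bxc_add]
    congr 1
    funext m
    ring
  rw [e4]
  refine (norm_add_le _ _).trans (add_le_add le_rfl ?_)
  refine (bxc_norm _ _ _).trans ?_
  have h11 : ∀ m, ‖D m * (U m - V m)‖ ≤ C * ‖U m - V m‖ := fun m => by
    rw [norm_mul]
    exact mul_le_mul_of_nonneg_right (hD m) (norm_nonneg _)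
  refine (bx_mono h11).trans ?_
  rw [bx_mul]
  exact mul_le_mul_of_nonneg_left hab hC

theorem bxc_cons {k : ℕ} (N0 : ℕ) (N' : Fin k → ℕ) (a : (Fin (k + 1) → ℕ) → ℂ) :
    bxc (k + 1) (Fin.cons N0 N') a = bxc k N' (fun m => (N0 : ℂ)⁻¹ *
      ∑ t ∈ Finset.range N0, a (Fin.cons t m)) := by
  rw [bxc_insert (Fin.cons N0 N') 0 a]
  simp only [Fin.cons_zero, Fin.zero_succAbove, Fin.cons_succ, Fin.insertNth_zero']

theorem pw_cons {G : Type*} [Group G] {k : ℕ} (x : G) (y : Fin k → G) (t : ℕ) (n : Fin k → ℕ) :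
    pw (Fin.cons x y : Fin (k + 1) → G) (Fin.cons t n : Fin (k + 1) → ℕ) = x ^ t * pw y n := by
  rw [pw_succ, Fin.cons_zero, Fin.cons_zero, Fin.tail_cons, Fin.tail_cons]

variable {X : Type*} {mA mY mX : MeasurableSpace X} {μ : Measure X} [IsProbabilityMeasure μ]
variable {G : Type*} [CommGroup G]
variable {Φ : G →* Equiv.Perm X} {ℓ : G → ℝ}
variable {J : Type} [DecidableEq J] [Fintype J]

/-- Convergence of all box averages with linear forms for the functions measurable with respect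
to `mY`. -/
def BaseConv (μ : Measure X) (mY : MeasurableSpace X) (Φ : G →* Equiv.Perm X) : Prop :=
  ∀ (J : Type) [Fintype J] (k : ℕ) (c : J → G) (b : J → Fin k → G) (g : J → X → ℂ),
    (∀ j, Measurable[mY] (g j)) → (∀ j, ∃ C : ℝ, ∀ x, ‖g j x‖ ≤ C) →
    ∀ᵐ x ∂μ, ∃ L : ℂ, Tendsto (fun N => bxc k N fun n => ∏ j, g j (Φ (c j * pw (b j) n) x))
      atTop (𝓝 L)

/-- The step: a variable not seen by the factors in `S`. -/
theorem step_base {S : Finset J} {F : J → X → ℂ} (hFb : ∀ v, ∃ C : ℝ, ∀ x, ‖F v x‖ ≤ C)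
    (hFY : ∀ v ∉ S, Measurable[mY] (F v)) (hB : BaseConv μ mY Φ) {k : ℕ} (c : J → G)
    (b : J → Fin (k + 1) → G) (l : Fin (k + 1)) (hl1 : ∀ v ∈ S, b v l = 1)
    (hih : ∀ t : ℕ, Cz μ (fun v (m : Fin k → ℕ) =>
      (Φ ((c v * b v l ^ t) * pw (fun i => b v (l.succAbove i)) m) : X → X)) F) :
    Cz μ (fun v (n : Fin (k + 1) → ℕ) => (Φ (c v * pw (b v) n) : X → X)) F := by
  classical
  set b' : J → Fin k → G := fun v i => b v (l.succAbove i) with hb'
  choose C hC using hFb
  -- the functions on the base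
  let g2 : Bool × J → X → ℂ := fun p x => if p.2 ∈ S then 1 else
    if p.1 then conj (F p.2 x) else F p.2 x
  let b2 : Bool × J → Fin (k + 2) → G := fun p =>
    if p.1 then Fin.cons 1 (Fin.cons (b p.2 l) (b' p.2))
      else Fin.cons (b p.2 l) (Fin.cons 1 (b' p.2))
  have hg2m : ∀ p, Measurable[mY] (g2 p) := by
    rintro ⟨β, v⟩
    by_cases hv : v ∈ S
    · have e : g2 (β, v) = fun _ => 1 := by
        funext x
        show (if v ∈ S then (1 : ℂ) else _) = 1
        rw [if_pos hv]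
      rw [e]
      exact measurable_const
    · cases β with
      | true =>
        have e : g2 (true, v) = fun x => conj (F v x) := by
          funext x
          show (if v ∈ S then (1 : ℂ) else _) = _
          rw [if_neg hv]
          rfl
        rw [e]
        exact Complex.continuous_conj.measurable.comp (hFY v hv)
      | false =>
        have e : g2 (false, v) = F v := by
          funext x
          show (if v ∈ S then (1 : ℂ) else _) = _
          rw [if_neg hv]
          rfl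
        rw [e]
        exact hFY v hv
  have hg2b : ∀ p, ∃ C : ℝ, ∀ x, ‖g2 p x‖ ≤ C := by
    rintro ⟨β, v⟩
    refine ⟨1 + |C v|, fun x => ?_⟩
    have h0 := (hC v x).trans (le_abs_self _)
    have h1 := abs_nonneg (C v)
    show ‖(if v ∈ S then (1 : ℂ) else if β then conj (F v x) else F v x)‖ ≤ _
    split_ifs
    · rw [norm_one]
      linarith
    · rw [RCLike.norm_conj]
      linarith
    · linarith
  have hbase := hB (Bool × J) (k + 2) (fun p => c p.2) b2 g2 hg2m hg2b
  have hihall : ∀ᵐ x ∂μ, ∀ t : ℕ, Tendsto (fun N => bxc k N fun m => ∏ v,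
      F v (Φ ((c v * b v l ^ t) * pw (b' v) m) x)) atTop (𝓝 0) := by
    rw [ae_all_iff]
    exact hih
  filter_upwards [hbase, hihall] with x hx hxt
  obtain ⟨Λ, hΛ⟩ := hx
  set D : (Fin k → ℕ) → ℂ := fun m => ∏ v ∈ S, F v (Φ (c v * pw (b' v) m) x) with hD
  set W : ℕ → (Fin k → ℕ) → ℂ := fun t m =>
    ∏ v ∈ Sᶜ, F v (Φ (c v * b v l ^ t * pw (b' v) m) x) with hW
  set U : ℕ → (Fin k → ℕ) → ℂ := fun N m => (N : ℂ)⁻¹ * ∑ t ∈ Finset.range N, W t m with hU
  have hprod : ∀ t m, ∏ v, F v (Φ ((c v * b v l ^ t) * pw (b' v) m) x) = D m * W t m := by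
    intro t m
    rw [← Finset.prod_mul_prod_compl S]
    congr 1
    refine Finset.prod_congr rfl fun v hv => ?_
    rw [hl1 v hv, one_pow, mul_one]
  -- the squares
  have hV : ∀ (N1 N2 : ℕ) (N' : Fin k → ℕ),
      bxc (k + 2) (Fin.cons N1 (Fin.cons N2 N')) (fun n => ∏ p, g2 p (Φ (c p.2 * pw (b2 p) n) x)) =
        bxc k N' (fun m => U N1 m * conj (U N2 m)) := by
    intro N1 N2 N'
    rw [bxc_cons, bxc_cons]
    congr 1
    funext m
    have e1 : ∀ t s : ℕ, ∏ p, g2 p (Φ (c p.2 * pw (b2 p)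
        (Fin.cons t (Fin.cons s m) : Fin (k + 2) → ℕ)) x) = W t m * conj (W s m) := by
      intro t s
      rw [Fintype.prod_prod_type, Fintype.prod_bool, mul_comm]
      congr 1
      · rw [hW]
        show _ = ∏ v ∈ Sᶜ, F v (Φ (c v * b v l ^ t * pw (b' v) m) x)
        rw [← Finset.prod_mul_prod_compl S, Finset.prod_eq_one (s := S), one_mul]
        · refine Finset.prod_congr rfl fun v hv => ?_
          rw [Finset.mem_compl] at hv
          show (if v ∈ S then (1 : ℂ) else F v (Φ (c v * pw (Fin.cons (b v l)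
            (Fin.cons 1 (b' v)) : Fin (k + 2) → G)
            (Fin.cons t (Fin.cons s m) : Fin (k + 2) → ℕ)) x)) = _
          rw [if_neg hv, pw_cons, pw_cons, one_pow, one_mul, mul_assoc]
        · intro v hv
          show (if v ∈ S then (1 : ℂ) else _) = 1
          rw [if_pos hv]
      · rw [hW]
        show _ = conj (∏ v ∈ Sᶜ, F v (Φ (c v * b v l ^ s * pw (b' v) m) x))
        rw [map_prod, ← Finset.prod_mul_prod_compl S, Finset.prod_eq_one (s := S), one_mul]
        · refine Finset.prod_congr rfl fun v hv => ?_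
          rw [Finset.mem_compl] at hv
          show (if v ∈ S then (1 : ℂ) else conj (F v (Φ (c v * pw (Fin.cons 1
            (Fin.cons (b v l) (b' v)) : Fin (k + 2) → G)
            (Fin.cons t (Fin.cons s m) : Fin (k + 2) → ℕ)) x))) = _
          rw [if_neg hv, pw_cons, pw_cons, one_pow, one_mul, mul_assoc]
        · intro v hv
          show (if v ∈ S then (1 : ℂ) else _) = 1
          rw [if_pos hv]
    simp only [e1]
    rw [hU]
    show (N2 : ℂ)⁻¹ * ∑ s ∈ Finset.range N2, (N1 : ℂ)⁻¹ * ∑ t ∈ Finset.range N1,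
      W t m * conj (W s m) = ((N1 : ℂ)⁻¹ * ∑ t ∈ Finset.range N1, W t m) *
        conj ((N2 : ℂ)⁻¹ * ∑ s ∈ Finset.range N2, W s m)
    rw [map_mul, map_inv₀, Complex.conj_natCast, map_sum]
    simp only [← Finset.sum_mul]
    rw [← Finset.mul_sum, ← Finset.mul_sum]
    ring
  have hDb : ∀ m, ‖D m‖ ≤ ∏ v ∈ S, |C v| := by
    intro m
    rw [hD, norm_prod]
    exact Finset.prod_le_prod (fun v _ => norm_nonneg _)
      fun v _ => (hC v _).trans (le_abs_self _)
  have hC0 : 0 ≤ ∏ v ∈ S, |C v| := Finset.prod_nonneg fun v _ => abs_nonneg _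
  have hbx : ∀ N : Fin (k + 1) → ℕ, bxc (k + 1) N (fun n => ∏ v, F v (Φ (c v * pw (b v) n) x)) =
      bxc k (fun i => N (l.succAbove i)) (fun m => D m * U (N l) m) := by
    intro N
    rw [bxc_insert N l]
    congr 1
    funext m
    have e1 : ∀ t : ℕ, ∏ v, F v (Φ (c v * pw (b v) (l.insertNth t m)) x) = D m * W t m := by
      intro t
      rw [← hprod t m]
      refine Finset.prod_congr rfl fun v _ => ?_
      rw [pw_insert, mul_assoc]
    simp only [e1]
    rw [← Finset.mul_sum, hU]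
    ring
  have hfix : ∀ R : ℕ, Tendsto (fun N' => bxc k N' fun m => D m * U R m) atTop (𝓝 0) := by
    intro R
    have h1 : Tendsto (fun N' => (R : ℂ)⁻¹ * ∑ t ∈ Finset.range R, bxc k N' fun m => ∏ v,
        F v (Φ ((c v * b v l ^ t) * pw (b' v) m) x)) atTop (𝓝 ((R : ℂ)⁻¹ * ∑ _t ∈ Finset.range R,
          (0 : ℂ))) :=
      (tendsto_finsetSum _ fun t _ => hxt t).const_mul _
    rw [Finset.sum_const_zero, mul_zero] at h1
    refine h1.congr fun N' => ?_
    rw [← bxc_sum, ← bxc_mul]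
    congr 1
    funext m
    simp only [hprod]
    rw [← Finset.mul_sum, hU]
    ring
  rw [Metric.tendsto_nhds]
  intro ε hε
  set δ : ℝ := ε / (10 * (∏ v ∈ S, |C v| + 1)) with hδ
  have hδ0 : 0 < δ := by positivity
  have hCδ : (∏ v ∈ S, |C v|) * (5 * δ) ≤ ε / 2 := by
    rw [hδ]
    have h1 : (∏ v ∈ S, |C v|) / (∏ v ∈ S, |C v| + 1) ≤ 1 := by
      rw [div_le_one (by positivity)]
      linarith
    calc (∏ v ∈ S, |C v|) * (5 * (ε / (10 * (∏ v ∈ S, |C v| + 1)))) =
        (ε / 2) * ((∏ v ∈ S, |C v|) / (∏ v ∈ S, |C v| + 1)) := by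
          field_simp
          ring
      _ ≤ (ε / 2) * 1 := mul_le_mul_of_nonneg_left h1 (by positivity)
      _ = ε / 2 := mul_one _
  have hev := (Metric.tendsto_nhds.1 hΛ) (δ ^ 2) (by positivity)
  obtain ⟨M₀, hM₀⟩ := eventually_atTop.1 hev
  set R : ℕ := ∑ i, M₀ i with hR
  have hRi : ∀ i, M₀ i ≤ R := fun i =>
    Finset.single_le_sum (f := M₀) (fun _ _ => Nat.zero_le _) (Finset.mem_univ i)
  have hclose : ∀ (N1 N2 : ℕ) (N' : Fin k → ℕ), R ≤ N1 → R ≤ N2 → (∀ i, R ≤ N' i) →
      ‖bxc k N' (fun m => U N1 m * conj (U N2 m)) - Λ‖ ≤ δ ^ 2 := by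
    intro N1 N2 N' h1 h2 h3
    have h4 := hM₀ (Fin.cons N1 (Fin.cons N2 N')) (by
      intro i
      refine Fin.cases ?_ (fun i => ?_) i
      · rw [Fin.cons_zero]
        exact (hRi 0).trans h1
      · rw [Fin.cons_succ]
        refine Fin.cases ?_ (fun i => ?_) i
        · rw [Fin.cons_zero]
          exact (hRi _).trans h2
        · rw [Fin.cons_succ]
          exact (hRi _).trans (h3 i))
    rw [hV, dist_eq_norm] at h4
    exact h4.le
  have hsmall : ∀ᶠ N : Fin (k + 1) → ℕ in atTop,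
      ‖bxc k (fun i => N (l.succAbove i)) (fun m => D m * U R m)‖ < ε / 2 := by
    have h1 := (hfix R).comp (tendsto_succAbove l)
    have h2 := (Metric.tendsto_nhds.1 h1) (ε / 2) (by positivity)
    filter_upwards [h2] with N hN
    rw [Function.comp_apply, dist_eq_norm, sub_zero] at hN
    exact hN
  filter_upwards [hsmall, eventually_ge_atTop (fun _ : Fin (k + 1) => R)] with N hN1 hN2
  rw [dist_eq_norm, sub_zero]
  show ‖bxc (k + 1) N (fun n => ∏ v, F v (Φ (c v * pw (b v) n) x))‖ < ε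
  rw [hbx]
  have hN' : ∀ i, R ≤ (fun i => N (l.succAbove i)) i := fun i => hN2 _
  have h5 := avg_estimate (fun i => N (l.succAbove i)) D (U (N l)) (U R) hC0 hδ0 hDb
    (hclose _ _ _ (hN2 l) (hN2 l) hN') (hclose _ _ _ (hN2 l) le_rfl hN')
    (hclose _ _ _ le_rfl (hN2 l) hN') (hclose _ _ _ le_rfl le_rfl hN')
  linarith

end Pool.Agent.V11191.KB
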