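import Pool.Agent.V11191.KB.RedC

/-!
# Reduction of box averages of linear forms to the base of a Kolmogorov extension
-/

set_option autoImplicit false
set_option linter.unusedSectionVars false

open MeasureTheory Filter Topology
open scoped ENNReal

noncomputable section

namespace Pool.Agent.V11191.KB

open Pool.Agent.W761.Box (bx bxc BM Good1 bxc_add bxc_sub bxc_mul dz orb)
open Pool.Agent.TH784.KE

/-- The affine form with constant term `e` and coefficients `A`. -/
def aff {k : ℕ} (e : ℤ) (A : Fin k → ℤ) : MvPolynomial (Fin k) ℤ :=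
  MvPolynomial.C e + ∑ l, MvPolynomial.C (A l) * MvPolynomial.X l

theorem aff_deg {k : ℕ} (e : ℤ) (A : Fin k → ℤ) : (aff e A).totalDegree ≤ 1 := by
  unfold aff
  refine (MvPolynomial.totalDegree_add _ _).trans (max_le ?_ ?_)
  · rw [MvPolynomial.totalDegree_C]
    exact zero_le_one
  · refine MvPolynomial.totalDegree_finsetSum_le fun l _ => ?_
    refine (MvPolynomial.totalDegree_mul _ _).trans ?_
    rw [MvPolynomial.totalDegree_C, MvPolynomial.totalDegree_X]

theorem aff_eval {k : ℕ} (e : ℤ) (A : Fin k → ℤ) (m : Fin k → ℕ) :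
    MvPolynomial.eval (fun l => ((m l : ℕ) : ℤ)) (aff e A) = e + ∑ l, m l • A l := by
  unfold aff
  rw [map_add, map_sum, MvPolynomial.eval_C]
  congr 1
  refine Finset.sum_congr rfl fun l _ => ?_
  rw [map_mul, MvPolynomial.eval_C, MvPolynomial.eval_X, nsmul_eq_mul, mul_comm]

/-- All averages over boxes, with polynomials of degree at most one, of products of bounded
`𝒵`-measurable functions converge almost everywhere. -/
def LinearBoxConvergence {X : Type} (𝒵 : MeasurableSpace X) {mX : MeasurableSpace X}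
    (μ : Measure X) {d : ℕ} (T : Fin d → Equiv.Perm X) : Prop :=
  ∀ (k n : ℕ) (P : Fin d → Fin n → MvPolynomial (Fin k) ℤ), (∀ i j, (P i j).totalDegree ≤ 1) →
    ∀ f : Fin n → X → ℂ, (∀ j, Measurable[𝒵] (f j)) → (∀ j, ∃ C : ℝ, ∀ x, ‖f j x‖ ≤ C) →
      ∀ᵐ x ∂μ, ∃ L : ℂ, Tendsto (boxAvg T P f x) atTop (𝓝 L)

theorem baseConv_of {X : Type} {𝒴 : MeasurableSpace X} {mX : MeasurableSpace X} {μ : Measure X}
    [IsProbabilityMeasure μ] {d : ℕ} {T : Fin d → Equiv.Perm X}
    (hc : ∀ i j, Commute (T i) (T j)) (hL : LinearBoxConvergence 𝒴 μ T) :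
    BaseConv μ 𝒴 (hom T hc) := by
  intro J _ k c b g hg hb
  classical
  let e := (Fintype.equivFin J).symm
  have h := hL k (Fintype.card J)
    (fun i j => aff ((c (e j)).toAdd i) (fun l => (b (e j) l).toAdd i))
    (fun i j => aff_deg _ _) (fun j => g (e j)) (fun j => hg _) (fun j => hb _)
  filter_upwards [h] with x hx
  obtain ⟨L, hx⟩ := hx
  refine ⟨L, hx.congr fun N => ?_⟩
  unfold boxAvg Pool.Agent.W761.Box.bxc
  congr 1
  refine Finset.sum_congr rfl fun m _ => ?_
  refine Eq.trans ?_ (e.prod_comp fun j => g j (hom T hc (c j * pw (b j) m) x))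
  refine Finset.prod_congr rfl fun j _ => ?_
  show g (e j) _ = g (e j) _
  congr 1
  show _ = act T (Multiplicative.toAdd _) x
  rw [toAdd_mul, toAdd_pw]
  unfold act
  congr 1
  congr 1
  congr 1
  funext i
  congr 1
  rw [aff_eval, Pi.add_apply, Finset.sum_apply]
  congr 1

/-- **The reduction.** -/
theorem main_red {X : Type} {𝒴 : MeasurableSpace X} {mX : MeasurableSpace X} {μ : Measure X}
    [IsProbabilityMeasure μ] {d : ℕ} {T : Fin d → Equiv.Perm X} (hT : IsKExtension 𝒴 μ T)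
    (hL : LinearBoxConvergence 𝒴 μ T) {k n : ℕ}
    (P : Fin d → Fin n → MvPolynomial (Fin k) ℤ) (hP : ∀ i j, (P i j).totalDegree ≤ 1)
    {f : Fin n → X → ℂ} (hf : ∀ j, MemLp (f j) ∞ μ) :
    ∀ᵐ x ∂μ, ∃ L : ℂ, Tendsto (boxAvg T P f x) atTop (𝓝 L) := by
  obtain ⟨lam, 𝒜, hK⟩ := hT.kol
  have hE := hK.ext hT.comm hT.mp hT.meas_symm
  have h := memLp_conv (Φ := hom T hT.comm) hE.fl (fun m j => cc P j * pw (bb P j) m)
    (fun g hg => conv_red hE (baseConv_of hT.comm hL) (cc P) (bb P)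
      (fun v l => hK.b1 P v l) (fun v w => hK.b2 P v w) hg) hf
  filter_upwards [h] with x hx
  obtain ⟨L, hL⟩ := hx
  exact ⟨L, hL.congr fun N => (boxAvg_eq T hT.comm P hP f x N).symm⟩

/-- The converse. -/
theorem main_red' {X : Type} {𝒴 : MeasurableSpace X} {mX : MeasurableSpace X} {μ : Measure X}
    [IsProbabilityMeasure μ] {d : ℕ} {T : Fin d → Equiv.Perm X} (hT : IsKExtension 𝒴 μ T)
    (h : ∀ (k n : ℕ) (P : Fin d → Fin n → MvPolynomial (Fin k) ℤ),
      (∀ i j, (P i j).totalDegree ≤ 1) → ∀ f : Fin n → X → ℂ, (∀ j, MemLp (f j) ∞ μ) →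
      ∀ᵐ x ∂μ, ∃ L : ℂ, Tendsto (boxAvg T P f x) atTop (𝓝 L)) :
    LinearBoxConvergence 𝒴 μ T := by
  have hYX : 𝒴 ≤ mX := by
    obtain ⟨lam, 𝒜, hK⟩ := hT.kol
    exact hK.base.trans hK.le
  intro k n P hP f hf hb
  refine h k n P hP f fun j => ?_
  obtain ⟨C, hC⟩ := hb j
  exact memLp_top_of_bound ((hf j).mono hYX le_rfl).aestronglyMeasurable C
    (Eventually.of_forall hC)

end Pool.Agent.V11191.KB
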